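import Pool.Agent.H25.HK.Targets

/-!
# Class group L-functions of number fields at the central point: definitions and targets
-/

set_option autoImplicit false

open NumberField NumberField.InfinitePlace NumberField.Units
  NumberField.Units.dirichletUnitTheorem MeasureTheory Set Filter Complex
open scoped nonZeroDivisors ENNReal

namespace Pool.Agent.H95.CG

open Pool.Agent.H25.HK

/-! ### Part A: positive definite matrices -/

section Mat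

variable {ι : Type} [Fintype ι]

/-- the value of the quadratic form at an integral vector -/
noncomputable def qz (S : Matrix ι ι ℝ) (m : ι → ℤ) : ℝ := qf S (fun i => (m i : ℝ))

/-- the theta function of a real matrix -/
noncomputable def ts (S : Matrix ι ι ℝ) (t : ℝ) : ℝ :=
  ∑' m : ι → ℤ, Real.exp (-Real.pi * (t * qz S m))

/-- the number of integral vectors with value less than `r` -/
noncomputable def cnt (S : Matrix ι ι ℝ) (r : ℝ) : ℕ := Nat.card {m : ι → ℤ // qz S m < r}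

/-- the real span of the integral vectors with value less than `r` -/
def sp (S : Matrix ι ι ℝ) (r : ℝ) : Submodule ℝ (ι → ℝ) :=
  Submodule.span ℝ {x | ∃ m : ι → ℤ, qz S m < r ∧ x = fun i => (m i : ℝ)}

/-- `a` is a lower bound for the nonzero values -/
def LB (S : Matrix ι ι ℝ) (a : ℝ) : Prop := 0 < a ∧ ∀ m : ι → ℤ, m ≠ 0 → a ≤ qz S m

/-- the integral over `t > 1` (central point) -/
noncomputable def PI (S : Matrix ι ι ℝ) : ℝ≥0∞ :=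
  ∫⁻ t in Ioi (1 : ℝ), ENNReal.ofReal
    ((ts S (t ^ (2 / (Fintype.card ι : ℝ))) - 1) * t ^ (-(1 / 2) : ℝ))

/-- the integral over `t > 0` (at `1 + σ`) -/
noncomputable def EI (S : Matrix ι ι ℝ) (σ : ℝ) : ℝ≥0∞ :=
  ∫⁻ t in Ioi (0 : ℝ), ENNReal.ofReal
    ((ts S (t ^ (2 / (Fintype.card ι : ℝ))) - 1) * t ^ σ)

end Mat

/-- (TF) the theta identity for matrices of determinant one. -/
def T_TF : Prop :=
  ∀ (ι : Type) [Fintype ι] [DecidableEq ι] (S : Matrix ι ι ℝ), S.PosDef → S.det = 1 →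
    S⁻¹.PosDef ∧ S⁻¹.det = 1 ∧ S⁻¹⁻¹ = S ∧ ∀ t : ℝ, 0 < t →
      Summable (fun m : ι → ℤ => Real.exp (-Real.pi * (t * qz S m))) ∧
      ts S t = t ^ (-(Fintype.card ι : ℝ) / 2) * ts S⁻¹ t⁻¹

/-- (PK) the packing bound in inner product spaces. -/
def T_PK : Prop :=
  ∀ (E : Type) [NormedAddCommGroup E] [InnerProductSpace ℝ E] [FiniteDimensional ℝ E]
    (s : Finset E) (R d : ℝ), 0 < d → 0 ≤ R → (∀ x ∈ s, ‖x‖ ≤ R) →
    (∀ x ∈ s, ∀ y ∈ s, x ≠ y → d ≤ ‖x - y‖) →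
    (s.card : ℝ) ≤ (1 + 2 * R / d) ^ Module.finrank ℝ E

/-- (PC) the packing bound for matrices. -/
def T_PC : Prop :=
  ∀ (ι : Type) [Fintype ι] [DecidableEq ι] (S : Matrix ι ι ℝ), S.PosDef →
    (∀ r : ℝ, {m : ι → ℤ | qz S m < r}.Finite) ∧
    ∀ r a : ℝ, 0 < r → LB S a →
      (cnt S r : ℝ) ≤ (1 + 2 * Real.sqrt (r / a)) ^ Module.finrank ℝ (sp S r)

/-- (CO) the theta function is bounded by the number of short vectors. -/
def T_CO : Prop :=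
  ∀ n : ℕ, ∃ C : ℝ, 0 < C ∧ ∀ (ι : Type) [Fintype ι] [DecidableEq ι] (S : Matrix ι ι ℝ),
    Fintype.card ι = n → S.PosDef → ∀ t : ℝ, 0 < t → ts S t ≤ C * cnt S t⁻¹

/-- (OR) short vectors of dual lattices are orthogonal. -/
def T_OR : Prop :=
  ∀ (ι : Type) [Fintype ι] [DecidableEq ι] (S : Matrix ι ι ℝ), S.PosDef → ∀ r : ℝ, 0 < r →
    Module.finrank ℝ (sp S r) + Module.finrank ℝ (sp S⁻¹ r⁻¹) ≤ Fintype.card ι

/-- (LL) the lattice lemma. -/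
def T_LL : Prop :=
  ∀ n : ℕ, 1 ≤ n → ∃ C : ℝ, 0 < C ∧ ∀ (ι : Type) [Fintype ι] [DecidableEq ι]
    (S : Matrix ι ι ℝ), Fintype.card ι = n → S.PosDef → S.det = 1 → ∀ a b t : ℝ, LB S a →
    LB S⁻¹ b → 1 ≤ t →
    ts S t ≤ C * (1 + (t * a) ^ (-(n : ℝ) / 4) + (t * b) ^ (-(n : ℝ) / 4))

/-- (TA) the theta function beyond the minimum. -/
def T_TA : Prop :=
  ∀ n : ℕ, ∃ C : ℝ, 0 < C ∧ ∀ (ι : Type) [Fintype ι] [DecidableEq ι] (S : Matrix ι ι ℝ),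
    Fintype.card ι = n → S.PosDef → ∀ a t : ℝ, LB S a → a⁻¹ ≤ t →
    ts S t - 1 ≤ C * Real.exp (-Real.pi * (t * a - 1))

/-- (MI) the minimum of a positive definite matrix of determinant one. -/
def T_MI : Prop :=
  ∀ n : ℕ, 1 ≤ n → ∃ C : ℝ, 1 ≤ C ∧ ∀ (ι : Type) [Fintype ι] [DecidableEq ι]
    (S : Matrix ι ι ℝ), Fintype.card ι = n → S.PosDef → S.det = 1 →
    ∃ a : ℝ, LB S a ∧ a ≤ C ∧ ∃ m : ι → ℤ, m ≠ 0 ∧ qz S m = a

/-- (KE) the integral at the central point. -/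
def T_KE : Prop :=
  ∀ n : ℕ, 1 ≤ n → ∃ C : ℝ, 0 < C ∧ ∀ (ι : Type) [Fintype ι] [DecidableEq ι]
    (S : Matrix ι ι ℝ), Fintype.card ι = n → S.PosDef → S.det = 1 → ∀ a b : ℝ, LB S a →
    LB S⁻¹ b → PI S ≤ ENNReal.ofReal (C * (1 + |Real.log a|) *
      (a ^ (-(n : ℝ) / 4) + b ^ (-(n : ℝ) / 4)))

/-- (EP) the integral at `1 + σ`. -/
def T_EI : Prop :=
  ∀ n : ℕ, 1 ≤ n → ∃ c : ℝ, 0 < c ∧ ∀ (ι : Type) [Fintype ι] [DecidableEq ι]
    (S : Matrix ι ι ℝ), Fintype.card ι = n → S.PosDef → S.det = 1 → ∀ a σ : ℝ, LB S a →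
    (∃ m : ι → ℤ, m ≠ 0 ∧ qz S m = a) → 0 ≤ σ → σ ≤ 1 →
    ENNReal.ofReal (c * a ^ (-(n : ℝ) / 2)) ≤ EI S σ

/-- (KK) the key inequality. -/
def T_KK : Prop :=
  ∀ n : ℕ, 1 ≤ n → ∃ C : ℝ, 0 < C ∧ ∀ (ι : Type) [Fintype ι] [DecidableEq ι]
    (S : Matrix ι ι ℝ), Fintype.card ι = n → S.PosDef → S.det = 1 → ∀ δ σ : ℝ, δ ≤ 1 →
    LB S δ → 0 ≤ σ → σ ≤ 1 →
    PI S ^ 2 ≤ ENNReal.ofReal (C * (1 + Real.log δ⁻¹) ^ 2) * (EI S σ + EI S⁻¹ σ)

/-! ### Part B: number fields -/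

section NF

variable (K : Type) [Field K] [NumberField K]

/-- the theta function in normalised coordinates -/
noncomputable def tn (M : FI K) (t : ℝ) (z : logSpace K) : ℝ :=
  th K M (yc K (Real.log (t / cv K M)) z)

open scoped Classical in
/-- the contribution of a class -/
noncomputable def Ir (M : FI K) : ℝ :=
  ∫ t in Ioi (1 : ℝ), (ff K M (t / cv K M) - volume.real (Fd K)) * t ^ (-(1 / 2) : ℝ)

/-- the contribution of a class and its dual -/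
noncomputable def Jr (M : FI K) : ℝ := Ir K M + Ir K (du K M)

/-- the partial zeta function -/
noncomputable def pz (M : FI K) (s : ℝ) : ℝ :=
  ∑' I : {I : Ideal (𝓞 K) // Pri K M I}, (Ideal.absNorm I.1 : ℝ) ^ (-s)

/-- the Gamma factor -/
noncomputable def gr (s : ℝ) : ℝ := (gK K s).re

/-- the constant `w 2^{-(r₁ + r₂)}` -/
noncomputable def cw : ℝ := torsionOrder K * ((2 : ℝ) ^ (nrRealPlaces K + nrComplexPlaces K))⁻¹

/-- characters of the class group -/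
abbrev CC : Type := ClassGroup (𝓞 K) →* ℂˣ

/-- `L` is the `L`-function of the class group character `ψ`: an entire function that is given
by the Dirichlet series for `Re s > 1` -/
def IsL (ψ : CC K) (L : ℂ → ℂ) : Prop :=
  Differentiable ℂ L ∧ ∀ s : ℂ, 1 < s.re →
    HasSum (fun I : (Ideal (𝓞 K))⁰ => ((ψ (ClassGroup.mk0 I) : ℂˣ) : ℂ) *
      (Ideal.absNorm (I : Ideal (𝓞 K)) : ℂ) ^ (-s)) (L s)

end NF

/-- (MX) the matrix of a fractional ideal. -/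
def T_MX : Prop :=
  ∀ (K : Type) [Field K] [NumberField K] (M : FI K), M ≠ 0 → ∀ z : logSpace K,
    ∃ (ι : Type) (_ : Fintype ι) (_ : DecidableEq ι) (S : Matrix ι ι ℝ),
      Fintype.card ι = Module.finrank ℚ K ∧ S.PosDef ∧ S.det = 1 ∧
      (∀ t : ℝ, 0 < t → tn K M t z = ts S (t ^ (2 / (Module.finrank ℚ K : ℝ)))) ∧
      (∀ t : ℝ, 0 < t → tn K (du K M) t (-z) = ts S⁻¹ (t ^ (2 / (Module.finrank ℚ K : ℝ)))) ∧
      LB S (|(discr K : ℝ)| ^ (-(1 / (Module.finrank ℚ K : ℝ)))) ∧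
      LB S⁻¹ (|(discr K : ℝ)| ^ (-(1 / (Module.finrank ℚ K : ℝ))))

open scoped Classical in
/-- (IF) the contribution of a class as an integral over the unit torus. -/
def T_IF : Prop :=
  ∀ (K : Type) [Field K] [NumberField K] (M : FI K), M ≠ 0 →
    0 ≤ Ir K M ∧
    (∀ t : ℝ, 0 < t → 0 ≤ ff K M (t / cv K M) - volume.real (Fd K)) ∧
    IntegrableOn (fun t : ℝ => (ff K M (t / cv K M) - volume.real (Fd K)) * t ^ (-(1 / 2) : ℝ))
      (Ioi 1) ∧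
    ENNReal.ofReal (Ir K M) = ∫⁻ z in Fd K, ∫⁻ t in Ioi (1 : ℝ),
      ENNReal.ofReal ((tn K M t z - 1) * t ^ (-(1 / 2) : ℝ)) ∧
    ∀ g : ℝ → ℝ, Measurable g → (∀ t, 0 ≤ g t) →
      Measurable (fun z : logSpace K => ∫⁻ t in Ioi (1 : ℝ),
        ENNReal.ofReal ((tn K M t z - 1) * g t)) ∧
      Measurable (fun z : logSpace K => ∫⁻ t in Ioi (0 : ℝ),
        ENNReal.ofReal ((tn K M t z - 1) * g t))

open scoped Classical in
/-- (ZM) the integral at `s > 1`. -/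
def T_ZM : Prop :=
  ∀ (K : Type) [Field K] [NumberField K] (M : FI K), M ≠ 0 → ∀ s : ℝ, 1 < s →
    0 < gr K s ∧ (gK K s).im = 0 ∧
    ∫⁻ z in Fd K, ∫⁻ t in Ioi (0 : ℝ), ENNReal.ofReal ((tn K M t z - 1) * t ^ (s - 1)) =
      ENNReal.ofReal (cw K * gr K s * |(discr K : ℝ)| ^ (s / 2) * pz K M s)

open scoped Classical in
/-- (PD) reflection of the unit torus. -/
def T_PD : Prop :=
  ∀ (K : Type) [Field K] [NumberField K] (M : FI K), M ≠ 0 → ∀ (A : Set ℝ) (g : ℝ → ℝ),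
    MeasurableSet A → Measurable g → (∀ t, 0 ≤ g t) →
    ∫⁻ z in Fd K, ∫⁻ t in A, ENNReal.ofReal ((tn K M t (-z) - 1) * g t) =
      ∫⁻ z in Fd K, ∫⁻ t in A, ENNReal.ofReal ((tn K M t z - 1) * g t)

open scoped Classical in
/-- (SB) the square of the contribution of a class. -/
def T_SB : Prop :=
  ∀ n : ℕ, 1 ≤ n → ∃ C : ℝ, 0 < C ∧ ∀ (K : Type) [Field K] [NumberField K],
    Module.finrank ℚ K = n → ∀ (M : FI K), M ≠ 0 → ∀ σ : ℝ, 0 < σ → σ ≤ 1 →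
    Ir K M ^ 2 ≤ C * (1 + Real.log |(discr K : ℝ)|) ^ 2 * volume.real (Fd K) * (cw K *
      gr K (1 + σ) * |(discr K : ℝ)| ^ ((1 + σ) / 2) * (pz K M (1 + σ) + pz K (du K M) (1 + σ)))

/-- (RC) representatives of the ideal classes. -/
def T_RC : Prop :=
  ∀ (K : Type) [Field K] [NumberField K], ∃ (M : ClassGroup (𝓞 K) → FI K)
    (d : ClassGroup (𝓞 K)), M 1 = 1 ∧ (∀ c, M c ≠ 0) ∧
    (∀ c (I : (Ideal (𝓞 K))⁰), Pri K (M c) I ↔ ClassGroup.mk0 I = c) ∧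
    ∀ c (I : (Ideal (𝓞 K))⁰), Pri K (du K (M c)) I ↔ ClassGroup.mk0 I = d * c⁻¹

/-- (LF) the `L`-function of a class group character and its central value. -/
def T_LF : Prop :=
  ∀ (K : Type) [Field K] [NumberField K] (M : ClassGroup (𝓞 K) → FI K), (∀ c, M c ≠ 0) →
    (∀ c (I : (Ideal (𝓞 K))⁰), Pri K (M c) I ↔ ClassGroup.mk0 I = c) →
    ∀ ψ : CC K, ψ ≠ 1 → ∃ L : ℂ → ℂ, IsL K ψ L ∧
      ((cw K : ℝ) : ℂ) * ((|(discr K : ℝ)| : ℝ) : ℂ) ^ ((1 / 4 : ℝ) : ℂ) * gK K (1 / 2) * L (1 / 2) =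
        ∑ᶠ c, ((ψ c : ℂˣ) : ℂ) * ((Jr K (M c) : ℝ) : ℂ)

/-- (FM) the contribution of the unit ideal. -/
def T_FM : Prop :=
  ∀ n : ℕ, 1 ≤ n → ∃ c : ℝ, 0 < c ∧ ∀ (K : Type) [Field K] [NumberField K],
    Module.finrank ℚ K = n →
    c * torsionOrder K * |(discr K : ℝ)| ^ (1 / 4 : ℝ) ≤ Ir K 1

/-- (ZB) the Dedekind zeta function near `1`. -/
def T_ZB : Prop :=
  ∀ (K : Type) [Field K] [NumberField K] (σ : ℝ), 0 < σ → σ ≤ 1 →
    Summable (fun I : (Ideal (𝓞 K))⁰ => (Ideal.absNorm (I : Ideal (𝓞 K)) : ℝ) ^ (-(1 + σ))) ∧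
    ∑' I : (Ideal (𝓞 K))⁰, (Ideal.absNorm (I : Ideal (𝓞 K)) : ℝ) ^ (-(1 + σ)) ≤
      (2 / σ) ^ Module.finrank ℚ K

/-- (GB) the Gamma factor is bounded. -/
def T_GB : Prop :=
  ∀ n : ℕ, ∃ C : ℝ, 0 < C ∧ ∀ (K : Type) [Field K] [NumberField K],
    Module.finrank ℚ K = n → ∀ s : ℝ, 1 ≤ s → s ≤ 2 → gr K s ≤ C

open scoped Classical in
/-- (RG) the volume of the fundamental domain is the regulator. -/
def T_RG : Prop :=
  ∀ (K : Type) [Field K] [NumberField K], volume.real (Fd K) = Units.regulator K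

/-- (CH) counting characters of a finite abelian group with a nonnegative weight. -/
def T_CH : Prop :=
  ∀ (G : Type) [CommGroup G] [Fintype G] (H : Subgroup (G →* ℂˣ)) (J : G → ℝ), (∀ g, 0 ≤ J g) →
    ((Nat.card H : ℝ) * J 1) ^ 2 ≤
      (Nat.card {ψ : G →* ℂˣ // ψ ∈ H ∧ ∑ g, ((ψ g : ℂˣ) : ℂ) * ((J g : ℝ) : ℂ) ≠ 0} : ℝ) *
        (Fintype.card G * ∑ g, J g ^ 2)

/-- (FI) the final theorem. -/
def T_FI : Prop :=
  ∀ n : ℕ, 2 ≤ n → ∃ c : ℝ, 0 < c ∧ ∀ (K : Type) [Field K] [NumberField K],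
    Module.finrank ℚ K = n → ∃ L : CC K → ℂ → ℂ, (∀ ψ, ψ ≠ 1 → IsL K ψ (L ψ)) ∧
      ∀ H : Subgroup (CC K),
        c * (Nat.card H : ℝ) ^ 2 / (classNumber K * Units.regulator K *
          Real.log |(discr K : ℝ)| ^ (n + 2)) - 1 ≤
        Nat.card {ψ : CC K // ψ ∈ H ∧ ψ ≠ 1 ∧ L ψ (1 / 2) ≠ 0}

end Pool.Agent.H95.CG
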