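import Pool.Agent.H95.CG.Targets

/-!
# (EI) the integral at `1 + σ`
-/

set_option autoImplicit false

open MeasureTheory Set Filter Complex
open scoped ENNReal

namespace Pool.Agent.H95.CG

open Pool.Agent.H25.HK

/-- the theta series converges -/
theorem summable_ts (hPO : T_PO) {ι : Type} [Fintype ι] {S : Matrix ι ι ℝ}
    (hS : S.PosDef) {t : ℝ} (ht : 0 < t) :
    Summable (fun m : ι → ℤ => Real.exp (-Real.pi * (t * qz S m))) := by
  classical
  have h := (hPO ι (t • S) (hS.smul ht)).1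
  refine h.congr fun m => ?_
  congr 2
  simp only [qz, qf, Matrix.smul_apply, smul_eq_mul, Finset.mul_sum]
  refine Finset.sum_congr rfl fun i _ => Finset.sum_congr rfl fun j _ => by ring

theorem qz_zero {ι : Type} [Fintype ι] (S : Matrix ι ι ℝ) : qz S 0 = 0 := by
  simp [qz, qf]

/-- one term of the theta series -/
theorem one_term (hPO : T_PO) {ι : Type} [Fintype ι] {S : Matrix ι ι ℝ}
    (hS : S.PosDef) {t : ℝ} (ht : 0 < t) {m : ι → ℤ} (hm : m ≠ 0) :
    Real.exp (-Real.pi * (t * qz S m)) ≤ ts S t - 1 := by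
  classical
  have hs := summable_ts hPO hS ht
  have h1 := hs.sum_le_tsum ({0, m} : Finset (ι → ℤ)) (fun i _ => (Real.exp_pos _).le)
  rw [Finset.sum_pair hm.symm, qz_zero, mul_zero, mul_zero, Real.exp_zero] at h1
  unfold ts
  linarith

theorem pf_ei (hPO : T_PO) (hMI : T_MI) : T_EI := by
  intro n hn
  obtain ⟨C, hC1, hC⟩ := hMI n hn
  have hC0 : 0 < C := by linarith
  have hn0 : (0 : ℝ) < n := by exact_mod_cast hn
  refine ⟨Real.exp (-Real.pi) / 2 * C ^ (-(n : ℝ) / 2), by positivity, ?_⟩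
  intro ι _ _ S hcard hS hdet a σ hLB ⟨m, hm0, hma⟩ hσ0 hσ1
  have ha := hLB.1
  -- `a ≤ C`
  have haC : a ≤ C := by
    obtain ⟨a', hLB', ha'C, m', hm'0, hm'a⟩ := hC ι S hcard hS hdet
    have := hLB.2 m' hm'0
    linarith
  obtain ⟨T, hT⟩ : ∃ T : ℝ, T = a ^ (-(n : ℝ) / 2) := ⟨_, rfl⟩
  have hT0 : 0 < T := by rw [hT]; positivity
  have key : ENNReal.ofReal (Real.exp (-Real.pi) * (T ^ (σ + 1) / (σ + 1))) ≤ EI S σ := by
    have h1 : ∫⁻ t in Ioc (0 : ℝ) T, ENNReal.ofReal (Real.exp (-Real.pi) * t ^ σ) =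
        ENNReal.ofReal (Real.exp (-Real.pi) * (T ^ (σ + 1) / (σ + 1))) := by
      have hint : IntervalIntegrable (fun t : ℝ => t ^ σ) volume 0 T :=
        intervalIntegral.intervalIntegrable_rpow' (by linarith)
      rw [← ofReal_integral_eq_lintegral_ofReal]
      · congr 1
        rw [integral_const_mul, ← intervalIntegral.integral_of_le hT0.le,
          integral_rpow (Or.inl (by linarith)), Real.zero_rpow (by linarith), sub_zero]
      · exact ((intervalIntegrable_iff_integrableOn_Ioc_of_le hT0.le).1 hint).const_mul _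
      · refine (ae_restrict_iff' measurableSet_Ioc).2 (Eventually.of_forall fun t ht => ?_)
        have := ht.1
        positivity
    rw [← h1]
    unfold EI
    refine (setLIntegral_mono' measurableSet_Ioc ?_).trans
      (lintegral_mono_set (fun t ht => ht.1))
    intro t ht
    have ht0 : 0 < t := ht.1
    refine ENNReal.ofReal_le_ofReal ?_
    refine mul_le_mul_of_nonneg_right ?_ (Real.rpow_nonneg ht0.le _)
    have hpos : 0 < t ^ (2 / (Fintype.card ι : ℝ)) := Real.rpow_pos_of_pos ht0 _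
    refine le_trans ?_ (one_term hPO hS hpos hm0)
    refine Real.exp_le_exp.2 ?_
    rw [hma, hcard]
    have h2 : t ^ (2 / (n : ℝ)) ≤ a⁻¹ := by
      calc t ^ (2 / (n : ℝ)) ≤ T ^ (2 / (n : ℝ)) :=
            Real.rpow_le_rpow ht0.le ht.2 (by positivity)
        _ = a⁻¹ := by
          rw [hT, ← Real.rpow_mul ha.le, ← Real.rpow_neg_one]
          congr 1
          field_simp
    have h3 : t ^ (2 / (n : ℝ)) * a ≤ 1 := by
      calc t ^ (2 / (n : ℝ)) * a ≤ a⁻¹ * a := mul_le_mul_of_nonneg_right h2 ha.le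
        _ = 1 := inv_mul_cancel₀ ha.ne'
    nlinarith [Real.pi_pos]
  refine le_trans (ENNReal.ofReal_le_ofReal ?_) key
  have h4 : T ^ (σ + 1) = T * T ^ σ := by
    rw [Real.rpow_add hT0, Real.rpow_one, mul_comm]
  have h5 : C ^ (-(n : ℝ) / 2) ≤ T ^ σ := by
    have h6 : C ^ (-(n : ℝ) / 2) ≤ T := by
      rw [hT]
      exact Real.rpow_le_rpow_of_nonpos ha haC (by linarith)
    have h7 : C ^ (-(n : ℝ) / 2) ≤ 1 :=
      Real.rpow_le_one_of_one_le_of_nonpos hC1 (by linarith)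
    have h8 : 0 < C ^ (-(n : ℝ) / 2) := by positivity
    calc C ^ (-(n : ℝ) / 2) = (C ^ (-(n : ℝ) / 2)) ^ (1 : ℝ) := (Real.rpow_one _).symm
      _ ≤ (C ^ (-(n : ℝ) / 2)) ^ σ :=
          Real.rpow_le_rpow_of_exponent_ge h8 h7 hσ1
      _ ≤ T ^ σ := Real.rpow_le_rpow h8.le h6 hσ0
  rw [h4, ← hT]
  have h9 : 1 / 2 ≤ 1 / (σ + 1) := one_div_le_one_div_of_le (by linarith) (by linarith)
  have hp : 0 < Real.exp (-Real.pi) := Real.exp_pos _
  have hTs : 0 ≤ T ^ σ := (Real.rpow_pos_of_pos hT0 _).le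
  calc Real.exp (-Real.pi) / 2 * C ^ (-(n : ℝ) / 2) * T
      ≤ Real.exp (-Real.pi) / 2 * T ^ σ * T := by gcongr
    _ = Real.exp (-Real.pi) * (T * T ^ σ) * (1 / 2) := by ring
    _ ≤ Real.exp (-Real.pi) * (T * T ^ σ) * (1 / (σ + 1)) := by gcongr
    _ = Real.exp (-Real.pi) * (T * T ^ σ / (σ + 1)) := by ring

end Pool.Agent.H95.CG
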