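import Pool.Agent.H95.CG.Targets

/-!
# (FI) the final theorem
-/

set_option autoImplicit false

open NumberField NumberField.InfinitePlace NumberField.Units
  NumberField.Units.dirichletUnitTheorem MeasureTheory Set Filter Complex
open scoped nonZeroDivisors ENNReal

namespace Pool.Agent.H95.CG

open Pool.Agent.H25.HK

/-- the partial zeta functions of representatives add up -/
theorem sum_pz (K : Type) [Field K] [NumberField K] (M : ClassGroup (𝓞 K) → FI K)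
    (e : ClassGroup (𝓞 K) → ClassGroup (𝓞 K)) (he : Function.Bijective e)
    (hM : ∀ c (I : (Ideal (𝓞 K))⁰), Pri K (M c) I ↔ ClassGroup.mk0 I = e c) (s : ℝ)
    (hs : Summable (fun I : (Ideal (𝓞 K))⁰ => (Ideal.absNorm (I : Ideal (𝓞 K)) : ℝ) ^ (-s))) :
    ∑ c, pz K (M c) s =
      ∑' I : (Ideal (𝓞 K))⁰, (Ideal.absNorm (I : Ideal (𝓞 K)) : ℝ) ^ (-s) := by
  have hI : ∀ I : Ideal (𝓞 K), I ≠ ⊥ → I ∈ (Ideal (𝓞 K))⁰ := fun I h =>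
    mem_nonZeroDivisors_of_ne_zero h
  let f : (Σ c, {I : Ideal (𝓞 K) // Pri K (M c) I}) → (Ideal (𝓞 K))⁰ :=
    fun x => ⟨x.2.1, hI _ x.2.2.1⟩
  have hf : Function.Bijective f := by
    constructor
    · rintro ⟨c, I, hc⟩ ⟨c', I', hc'⟩ h
      have h1 : I = I' := congrArg (fun x : (Ideal (𝓞 K))⁰ => (x : Ideal (𝓞 K))) h
      subst h1
      have h2 := (hM c ⟨I, hI _ hc.1⟩).1 hc
      have h3 := (hM c' ⟨I, hI _ hc.1⟩).1 hc'
      have h4 : c = c' := he.1 (h2.symm.trans h3)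
      subst h4
      rfl
    · intro I
      obtain ⟨c, hc⟩ := he.2 (ClassGroup.mk0 I)
      exact ⟨⟨c, I, (hM c I).2 hc.symm⟩, rfl⟩
  let E := Equiv.ofBijective f hf
  have h1 : Summable (fun x : (Σ c, {I : Ideal (𝓞 K) // Pri K (M c) I}) =>
      (Ideal.absNorm (x.2.1) : ℝ) ^ (-s)) := (E.summable_iff
        (f := fun I : (Ideal (𝓞 K))⁰ => (Ideal.absNorm (I : Ideal (𝓞 K)) : ℝ) ^ (-s))).2 hs
  rw [← E.tsum_eq (fun I : (Ideal (𝓞 K))⁰ => (Ideal.absNorm (I : Ideal (𝓞 K)) : ℝ) ^ (-s))]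
  have h2 := h1.tsum_sigma
  change _ = ∑' x : (Σ c, {I : Ideal (𝓞 K) // Pri K (M c) I}),
    (Ideal.absNorm (x.2.1) : ℝ) ^ (-s)
  rw [h2, tsum_fintype]
  rfl

open scoped Classical in
theorem pf_fi (hLF : T_LF) (hFM : T_FM) (hSB : T_SB) (hRC : T_RC) (hZB : T_ZB) (hGB : T_GB)
    (hRG : T_RG) (hCH : T_CH) (hIF : T_IF) (hDU : T_DU) (hZM : T_ZM) : T_FI := by
  intro n hn
  have hn1 : 1 ≤ n := by omega
  obtain ⟨C1, hC1, hSB'⟩ := hSB n hn1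
  obtain ⟨c1, hc1, hFM'⟩ := hFM n hn1
  obtain ⟨C2, hC2, hGB'⟩ := hGB n
  obtain ⟨C3, hC3⟩ : ∃ C3 : ℝ, C3 = 64 * 2 ^ n * C1 * C2 := ⟨_, rfl⟩
  have hC30 : 0 < C3 := by rw [hC3]; positivity
  refine ⟨c1 ^ 2 / C3, by positivity, ?_⟩
  intro K _ _ hKn
  -- the discriminant
  obtain ⟨D, hD⟩ : ∃ D : ℝ, D = |(discr K : ℝ)| := ⟨_, rfl⟩
  have hD3 : 3 ≤ D := by
    have h1 : 2 < |discr K| := abs_discr_gt_two (by rw [hKn]; omega)
    have h2 : 3 ≤ |discr K| := h1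
    rw [hD]
    exact_mod_cast h2
  have hD0 : 0 < D := by linarith
  obtain ⟨L, hL⟩ : ∃ L : ℝ, L = Real.log D := ⟨_, rfl⟩
  have hL1 : 1 ≤ L := by
    rw [hL, Real.le_log_iff_exp_le hD0]
    have := Real.exp_one_lt_d9
    linarith
  have hL0 : 0 < L := by linarith
  obtain ⟨σ, hσ⟩ : ∃ σ : ℝ, σ = L⁻¹ := ⟨_, rfl⟩
  have hσ0 : 0 < σ := by rw [hσ]; positivity
  have hσ1 : σ ≤ 1 := by rw [hσ]; exact inv_le_one_of_one_le₀ hL1
  -- representatives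
  obtain ⟨M, d, hM1, hM0, hMP, hMP'⟩ := hRC K
  have hdM0 : ∀ c, du K (M c) ≠ 0 := fun c => (hDU K (M c) (hM0 c)).1
  have hddM : ∀ c, du K (du K (M c)) = M c := fun c => (hDU K (M c) (hM0 c)).2.1
  choose! Lf hLf using fun (ψ : CC K) (h : ψ ≠ 1) => hLF K M hM0 hMP ψ h
  refine ⟨Lf, fun ψ h => (hLf ψ h).1, ?_⟩
  intro H
  -- the weights
  have hIr : ∀ c, 0 ≤ Ir K (M c) := fun c => (hIF K (M c) (hM0 c)).1
  have hIr' : ∀ c, 0 ≤ Ir K (du K (M c)) := fun c => (hIF K (du K (M c)) (hdM0 c)).1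
  obtain ⟨J, hJ⟩ : ∃ J : ClassGroup (𝓞 K) → ℝ, J = fun c => Jr K (M c) := ⟨_, rfl⟩
  have hJ0 : ∀ c, 0 ≤ J c := fun c => by
    rw [hJ]
    exact add_nonneg (hIr c) (hIr' c)
  have hch := hCH (ClassGroup (𝓞 K)) H J hJ0
  -- the first moment
  obtain ⟨w, hw⟩ : ∃ w : ℝ, w = torsionOrder K := ⟨_, rfl⟩
  have hw1 : 1 ≤ w := by
    rw [hw]
    exact_mod_cast torsionOrder_pos K
  have hJ1 : c1 * w * D ^ (1 / 4 : ℝ) ≤ J 1 := by
    have h1 := hFM' K hKn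
    rw [← hw, ← hD] at h1
    rw [hJ]
    have h2 : Jr K (M 1) = Ir K 1 + Ir K (du K 1) := by rw [hM1]; rfl
    have h3 := hIr' 1
    rw [hM1] at h3
    simp only
    rw [h2]
    linarith
  -- the second moment
  obtain ⟨Z, hZ⟩ : ∃ Z : ℝ, Z = ∑' I : (Ideal (𝓞 K))⁰,
    (Ideal.absNorm (I : Ideal (𝓞 K)) : ℝ) ^ (-(1 + σ)) := ⟨_, rfl⟩
  obtain ⟨hZs, hZb⟩ := hZB K σ hσ0 hσ1
  rw [← hZ, hKn] at hZb
  have hZb' : Z ≤ (2 * L) ^ n := by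
    have : 2 / σ = 2 * L := by rw [hσ]; field_simp
    rwa [this] at hZb
  have hZ1 : ∑ c, pz K (M c) (1 + σ) = Z := by
    rw [hZ]
    exact sum_pz K M id Function.bijective_id hMP (1 + σ) hZs
  have hZ2 : ∑ c, pz K (du K (M c)) (1 + σ) = Z := by
    rw [hZ]
    refine sum_pz K (fun c => du K (M c)) (fun c => d * c⁻¹) ?_ hMP' (1 + σ) hZs
    constructor
    · intro a b h
      simpa using h
    · intro b
      exact ⟨d * b⁻¹, by simp⟩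
  obtain ⟨R, hR⟩ : ∃ R : ℝ, R = Units.regulator K := ⟨_, rfl⟩
  have hR0 : 0 < R := by rw [hR]; exact Units.regulator_pos K
  obtain ⟨Y, hY⟩ : ∃ Y : ℝ, Y = C1 * (1 + L) ^ 2 * R * (cw K * gr K (1 + σ) *
    D ^ ((1 + σ) / 2)) := ⟨_, rfl⟩
  have hcw0 : 0 ≤ cw K := by unfold cw; positivity
  have hcw1 : cw K ≤ w := by
    unfold cw
    rw [← hw]
    have h1 : (1 : ℝ) ≤ 2 ^ (nrRealPlaces K + nrComplexPlaces K) := one_le_pow₀ (by norm_num)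
    have h2 : ((2 : ℝ) ^ (nrRealPlaces K + nrComplexPlaces K))⁻¹ ≤ 1 := inv_le_one_of_one_le₀ h1
    nlinarith
  have hgr0 : 0 < gr K (1 + σ) := (hZM K (M 1) (hM0 1) (1 + σ) (by linarith)).1
  have hgr1 : gr K (1 + σ) ≤ C2 := hGB' K hKn (1 + σ) (by linarith) (by linarith)
  have hsb1 : ∀ c, Ir K (M c) ^ 2 ≤ Y * (pz K (M c) (1 + σ) + pz K (du K (M c)) (1 + σ)) := by
    intro c
    have h1 := hSB' K hKn (M c) (hM0 c) σ hσ0 hσ1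
    rw [← hD, ← hL, hRG K, ← hR] at h1
    calc _ ≤ _ := h1
      _ = _ := by rw [hY]; ring
  have hsb2 : ∀ c, Ir K (du K (M c)) ^ 2 ≤
      Y * (pz K (M c) (1 + σ) + pz K (du K (M c)) (1 + σ)) := by
    intro c
    have h1 := hSB' K hKn (du K (M c)) (hdM0 c) σ hσ0 hσ1
    rw [← hD, ← hL, hRG K, ← hR, hddM c] at h1
    calc _ ≤ _ := h1
      _ = _ := by rw [hY]; ring
  have hsum : ∑ c, J c ^ 2 ≤ 8 * Y * Z := by
    have h1 : ∀ c, J c ^ 2 ≤ 4 * Y * (pz K (M c) (1 + σ) + pz K (du K (M c)) (1 + σ)) := by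
      intro c
      have h2 : J c = Ir K (M c) + Ir K (du K (M c)) := by rw [hJ]; rfl
      rw [h2]
      nlinarith [hsb1 c, hsb2 c, sq_nonneg (Ir K (M c) - Ir K (du K (M c)))]
    calc ∑ c, J c ^ 2 ≤ ∑ c, 4 * Y * (pz K (M c) (1 + σ) + pz K (du K (M c)) (1 + σ)) :=
          Finset.sum_le_sum fun c _ => h1 c
      _ = 8 * Y * Z := by
          rw [← Finset.mul_sum, Finset.sum_add_distrib, hZ1, hZ2]
          ring
  have hDσ : D ^ ((1 + σ) / 2) ≤ 2 * D ^ (1 / 2 : ℝ) := by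
    have h1 : (1 + σ) / 2 = 1 / 2 + σ / 2 := by ring
    rw [h1, Real.rpow_add hD0, mul_comm]
    refine mul_le_mul_of_nonneg_right ?_ (Real.rpow_nonneg hD0.le _)
    rw [Real.rpow_def_of_pos hD0, ← hL, hσ]
    have h2 : L * (L⁻¹ / 2) = 1 / 2 := by field_simp
    rw [h2]
    have h3 := Real.exp_one_lt_d9
    have h4 : Real.exp (1 / 2) ^ 2 = Real.exp 1 := by
      rw [← Real.exp_nat_mul]
      norm_num
    have h5 := Real.exp_pos (1 / 2)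
    nlinarith
  have hYb : Y ≤ C1 * (4 * L ^ 2) * R * (w * C2 * (2 * D ^ (1 / 2 : ℝ))) := by
    rw [hY]
    have h1 : (1 + L) ^ 2 ≤ 4 * L ^ 2 := by nlinarith
    have h2 : 0 ≤ D ^ ((1 + σ) / 2) := Real.rpow_nonneg hD0.le _
    gcongr
  have hZ0 : 0 ≤ Z := by
    rw [hZ]
    exact tsum_nonneg fun I => Real.rpow_nonneg (Nat.cast_nonneg _) _
  have hsum2 : ∑ c, J c ^ 2 ≤ C3 * w * D ^ (1 / 2 : ℝ) * (R * L ^ (n + 2)) := by
    refine hsum.trans ?_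
    calc 8 * Y * Z ≤ 8 * (C1 * (4 * L ^ 2) * R * (w * C2 * (2 * D ^ (1 / 2 : ℝ)))) *
          (2 * L) ^ n := by gcongr
      _ = C3 * w * D ^ (1 / 2 : ℝ) * (R * L ^ (n + 2)) := by
          rw [hC3, mul_pow]
          ring
  -- the counts
  obtain ⟨h, hh⟩ : ∃ h : ℝ, h = classNumber K := ⟨_, rfl⟩
  have hh0 : 0 < h := by
    rw [hh]
    exact_mod_cast classNumber_pos K
  have hcard : (Fintype.card (ClassGroup (𝓞 K)) : ℝ) = h := by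
    rw [hh]
    rfl
  obtain ⟨a, ha⟩ : ∃ a : ℝ, a = Nat.card H := ⟨_, rfl⟩
  obtain ⟨N, hN⟩ : ∃ N : ℕ, N = Nat.card {ψ : CC K // ψ ∈ H ∧
    ∑ g, ((ψ g : ℂˣ) : ℂ) * ((J g : ℝ) : ℂ) ≠ 0} := ⟨_, rfl⟩
  obtain ⟨N', hN'⟩ : ∃ N' : ℕ, N' = Nat.card {ψ : CC K // ψ ∈ H ∧ ψ ≠ 1 ∧ Lf ψ (1 / 2) ≠ 0} :=
    ⟨_, rfl⟩
  rw [hcard] at hch
  have hfinCC : Finite (CC K) := by
    have := (CommGroup.monoidHom_mulEquiv_of_hasEnoughRootsOfUnity (ClassGroup (𝓞 K)) ℂ)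
    exact Finite.of_equiv _ this.some.symm.toEquiv
  have hNN : (N : ℝ) ≤ N' + 1 := by
    have h1 : {ψ : CC K | ψ ∈ H ∧ ∑ g, ((ψ g : ℂˣ) : ℂ) * ((J g : ℝ) : ℂ) ≠ 0} ⊆
        insert 1 {ψ : CC K | ψ ∈ H ∧ ψ ≠ 1 ∧ Lf ψ (1 / 2) ≠ 0} := by
      rintro ψ ⟨hψ, hA⟩
      by_cases h1 : ψ = 1
      · exact Or.inl h1
      · refine Or.inr ⟨hψ, h1, fun h2 => hA ?_⟩
        have h3 := (hLf ψ h1).2
        rw [h2, mul_zero, finsum_eq_sum_of_fintype] at h3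
        rw [hJ]
        exact h3.symm
    have h2 : N ≤ N' + 1 := by
      rw [hN, hN']
      have h3 := Set.ncard_le_ncard h1 (Set.toFinite _)
      have h4 := Set.ncard_insert_le (1 : CC K)
        {ψ : CC K | ψ ∈ H ∧ ψ ≠ 1 ∧ Lf ψ (1 / 2) ≠ 0}
      exact h3.trans h4
    exact_mod_cast h2
  have hDq : 0 < D ^ (1 / 4 : ℝ) := by positivity
  have hD2 : D ^ (1 / 2 : ℝ) = D ^ (1 / 4 : ℝ) * D ^ (1 / 4 : ℝ) := by
    rw [← Real.rpow_add hD0]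
    norm_num
  have ha0 : 0 ≤ a := by rw [ha]; positivity
  rw [← ha, ← hN] at hch
  have hfin : c1 ^ 2 * a ^ 2 ≤ N * (h * (C3 * (R * L ^ (n + 2)))) := by
    have h1 : (a * (c1 * w * D ^ (1 / 4 : ℝ))) ^ 2 ≤ (a * J 1) ^ 2 := by
      gcongr
    have h2 : (a * (c1 * w * D ^ (1 / 4 : ℝ))) ^ 2 ≤
        N * (h * (C3 * w * D ^ (1 / 2 : ℝ) * (R * L ^ (n + 2)))) := by
      refine h1.trans (hch.trans ?_)
      gcongr
    have h3 : 0 < w * D ^ (1 / 2 : ℝ) := by positivity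
    have h4 : (c1 ^ 2 * a ^ 2 * w) * (w * D ^ (1 / 2 : ℝ)) ≤
        (N * (h * (C3 * (R * L ^ (n + 2))))) * (w * D ^ (1 / 2 : ℝ)) := by
      calc (c1 ^ 2 * a ^ 2 * w) * (w * D ^ (1 / 2 : ℝ)) =
            (a * (c1 * w * D ^ (1 / 4 : ℝ))) ^ 2 := by rw [hD2]; ring
        _ ≤ _ := h2
        _ = _ := by ring
    have h5 := le_of_mul_le_mul_right h4 h3
    have h6 : c1 ^ 2 * a ^ 2 ≤ c1 ^ 2 * a ^ 2 * w := by
      have : 0 ≤ c1 ^ 2 * a ^ 2 := by positivity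
      nlinarith
    linarith
  rw [← ha, ← hh, ← hR, ← hD, ← hL, ← hN']
  have hden : 0 < h * R * L ^ (n + 2) := by positivity
  have h7 : c1 ^ 2 / C3 * a ^ 2 / (h * R * L ^ (n + 2)) ≤ N := by
    rw [div_le_iff₀ hden, div_mul_eq_mul_div, div_le_iff₀ hC30]
    calc c1 ^ 2 * a ^ 2 ≤ N * (h * (C3 * (R * L ^ (n + 2)))) := hfin
      _ = _ := by ring
  linarith

end Pool.Agent.H95.CG
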