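import Pool.Agent.H95.CG.Targets

/-!
# (KK) the key inequality
-/

set_option autoImplicit false

open MeasureTheory Set Filter Complex
open scoped ENNReal

namespace Pool.Agent.H95.CG

open Pool.Agent.H25.HK

theorem pf_kk (hKE : T_KE) (hEI : T_EI) (hMI : T_MI) (hTF : T_TF) : T_KK := by
  intro n hn
  obtain ⟨C1, hC1, hM⟩ := hMI n hn
  obtain ⟨C2, hC2, hK⟩ := hKE n hn
  obtain ⟨c, hc, hE⟩ := hEI n hn
  have hlC1 : 0 ≤ Real.log C1 := Real.log_nonneg hC1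
  refine ⟨2 * C2 ^ 2 * (1 + Real.log C1) ^ 2 / c, by positivity, ?_⟩
  intro ι _ _ S hcard hS hdet δ σ hδ1 hLB hσ0 hσ1
  obtain ⟨hSi, hdeti, -, -⟩ := hTF ι S hS hdet
  obtain ⟨a, hLBa, haC, ma, hma0, hma⟩ := hM ι S hcard hS hdet
  obtain ⟨b, hLBb, hbC, mb, hmb0, hmb⟩ := hM ι S⁻¹ hcard hSi hdeti
  have hK1 := hK ι S hcard hS hdet a b hLBa hLBb
  have hE1 := hE ι S hcard hS hdet a σ hLBa ⟨ma, hma0, hma⟩ hσ0 hσ1
  have hE2 := hE ι S⁻¹ hcard hSi hdeti b σ hLBb ⟨mb, hmb0, hmb⟩ hσ0 hσ1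
  have ha := hLBa.1
  have hb := hLBb.1
  have hδ := hLB.1
  have hδa : δ ≤ a := by
    rw [← hma]
    exact hLB.2 ma hma0
  have hlδ : 0 ≤ Real.log δ⁻¹ := Real.log_nonneg ((one_le_inv₀ hδ).2 hδ1)
  have hlog : 1 + |Real.log a| ≤ (1 + Real.log C1) * (1 + Real.log δ⁻¹) := by
    have h1 : Real.log a ≤ Real.log C1 := Real.log_le_log ha haC
    have h2 : Real.log δ ≤ Real.log a := Real.log_le_log hδ hδa
    have h3 : Real.log δ⁻¹ = -Real.log δ := Real.log_inv δ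
    have h4 : |Real.log a| ≤ Real.log C1 + Real.log δ⁻¹ := by
      rw [abs_le]
      constructor <;> linarith
    nlinarith [mul_nonneg hlC1 hlδ]
  obtain ⟨A, hA⟩ : ∃ A : ℝ, A = a ^ (-(n : ℝ) / 4) := ⟨_, rfl⟩
  obtain ⟨B, hB⟩ : ∃ B : ℝ, B = b ^ (-(n : ℝ) / 4) := ⟨_, rfl⟩
  have hA0 : 0 < A := by rw [hA]; positivity
  have hB0 : 0 < B := by rw [hB]; positivity
  have hA2 : a ^ (-(n : ℝ) / 2) = A ^ 2 := by
    rw [hA, ← Real.rpow_natCast, ← Real.rpow_mul ha.le]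
    congr 1
    push_cast
    ring
  have hB2 : b ^ (-(n : ℝ) / 2) = B ^ 2 := by
    rw [hB, ← Real.rpow_natCast, ← Real.rpow_mul hb.le]
    congr 1
    push_cast
    ring
  rw [hA2] at hE1
  rw [hB2] at hE2
  rw [← hA, ← hB] at hK1
  have hsq : PI S ^ 2 ≤ ENNReal.ofReal ((C2 * (1 + |Real.log a|) * (A + B)) ^ 2) := by
    rw [ENNReal.ofReal_pow (by positivity)]
    exact pow_le_pow_left' hK1 2
  refine hsq.trans ?_
  obtain ⟨X, hX⟩ : ∃ X : ℝ, X = 2 * C2 ^ 2 * (1 + Real.log C1) ^ 2 / c * (1 + Real.log δ⁻¹) ^ 2 :=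
    ⟨_, rfl⟩
  have hX0 : 0 ≤ X := by rw [hX]; positivity
  rw [← hX]
  calc ENNReal.ofReal ((C2 * (1 + |Real.log a|) * (A + B)) ^ 2)
      ≤ ENNReal.ofReal (X * (c * A ^ 2 + c * B ^ 2)) := by
        refine ENNReal.ofReal_le_ofReal ?_
        have h5 : (A + B) ^ 2 ≤ 2 * (A ^ 2 + B ^ 2) := by nlinarith [sq_nonneg (A - B)]
        have h6 : (1 + |Real.log a|) ^ 2 ≤ ((1 + Real.log C1) * (1 + Real.log δ⁻¹)) ^ 2 :=
          pow_le_pow_left₀ (by positivity) hlog 2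
        calc (C2 * (1 + |Real.log a|) * (A + B)) ^ 2
            = C2 ^ 2 * (1 + |Real.log a|) ^ 2 * (A + B) ^ 2 := by ring
          _ ≤ C2 ^ 2 * ((1 + Real.log C1) * (1 + Real.log δ⁻¹)) ^ 2 * (2 * (A ^ 2 + B ^ 2)) := by
              gcongr
          _ = X * (c * A ^ 2 + c * B ^ 2) := by
              rw [hX]
              field_simp
    _ = ENNReal.ofReal X * (ENNReal.ofReal (c * A ^ 2) + ENNReal.ofReal (c * B ^ 2)) := by
        rw [ENNReal.ofReal_mul hX0, ENNReal.ofReal_add (by positivity) (by positivity)]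
    _ ≤ ENNReal.ofReal X * (EI S σ + EI S⁻¹ σ) := by
        gcongr

end Pool.Agent.H95.CG
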