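import Pool.Agent.H95.CG.Meas
import Pool.Agent.H25.HK.HE
import Pool.Agent.H63.HK.WP

/-!
# (LF) the `L`-function of a class group character and its central value
-/

set_option autoImplicit false

open NumberField NumberField.InfinitePlace NumberField.Units
  NumberField.Units.dirichletUnitTheorem MeasureTheory Set Filter Complex Asymptotics
open scoped nonZeroDivisors ENNReal

namespace Pool.Agent.H95.CG

open Pool.Agent.H25.HK

section

variable (K : Type) [Field K] [NumberField K]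

theorem cv_mul (hDU : T_DU) {M : FI K} (hM : M ≠ 0) : cv K M * cv K (du K M) = 1 := by
  have h := (hDU K M hM).2.2.2.2
  have hD : 0 ≤ |(discr K : ℝ)| := abs_nonneg _
  unfold cv
  calc Real.sqrt |(discr K : ℝ)| * (FractionalIdeal.absNorm M : ℝ) *
        (Real.sqrt |(discr K : ℝ)| * (FractionalIdeal.absNorm (du K M) : ℝ))
      = (Real.sqrt |(discr K : ℝ)| * Real.sqrt |(discr K : ℝ)|) *
        ((FractionalIdeal.absNorm (du K M) : ℝ) * (FractionalIdeal.absNorm M : ℝ)) := by ring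
    _ = |(discr K : ℝ)| *
        ((FractionalIdeal.absNorm (du K M) : ℝ) * (FractionalIdeal.absNorm M : ℝ)) := by
        rw [Real.mul_self_sqrt hD]
    _ = _ := by
        rw [← h]
        ring

open scoped Classical in
/-- the normalised pair -/
theorem exists_pair (hTH : T_TH) (hUI : T_UI) (hFD : T_FD) (hCT : T_CT) (hDC : T_DC)
    (hDU : T_DU) (hYC : T_YC) (M : FI K) (hM : M ≠ 0) : ∃ P : WeakFEPair ℂ,
    (∀ t, P.f t = (ff K M (t / cv K M) : ℂ)) ∧
    (∀ t, P.g t = (ff K (du K M) (t / cv K (du K M)) : ℂ)) ∧ P.k = 1 ∧ P.ε = 1 ∧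
    P.f₀ = ((volume.real (Fd K) : ℝ) : ℂ) ∧ P.g₀ = ((volume.real (Fd K) : ℝ) : ℂ) := by
  have hd : du K M ≠ 0 := (hDU K M hM).1
  have hcv := cv_pos K hDU hM
  have hcv' := cv_pos K hDU hd
  have hmul := cv_mul K hDU hM
  have hloc : ∀ M' : FI K, M' ≠ 0 → 0 < cv K M' →
      LocallyIntegrableOn (fun t => (ff K M' (t / cv K M') : ℂ)) (Ioi 0) := by
    intro M' hM' hc
    apply ContinuousOn.locallyIntegrableOn _ measurableSet_Ioi
    refine Complex.continuous_ofReal.comp_continuousOn ?_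
    refine (Pool.Agent.H63.HK.gg_cont K hCT hYC hFD M' hM').comp_continuousOn
      (f := fun t : ℝ => Real.log (t / cv K M')) ?_
    intro x hx
    have hx0 : (0 : ℝ) < x := hx
    have h1 : x / cv K M' ≠ 0 := (div_pos hx0 hc).ne'
    have h2 : ContinuousAt (fun t : ℝ => t / cv K M') x := continuousAt_id.div_const _
    exact (ContinuousAt.comp (g := Real.log) (f := fun t : ℝ => t / cv K M')
      (Real.continuousAt_log h1) h2).continuousWithinAt
  have htop : ∀ M' : FI K, M' ≠ 0 → 0 < cv K M' → ∀ r : ℝ,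
      (fun t => (ff K M' (t / cv K M') : ℂ) - ((volume.real (Fd K) : ℝ) : ℂ)) =O[atTop]
        (fun t : ℝ => t ^ r) := by
    intro M' hM' hc r
    have h1 := (Pool.Agent.H63.HK.ff_top K hCT hYC hFD hDC M' hM' r).comp_tendsto
      (tendsto_id.atTop_div_const hc)
    refine h1.trans ?_
    refine IsBigO.of_bound (cv K M' ^ (-r)) ?_
    filter_upwards [eventually_ge_atTop 0] with t ht
    simp only [Function.comp, id]
    rw [Real.div_rpow ht hc.le, Real.norm_eq_abs, Real.norm_eq_abs, abs_div,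
      abs_of_pos (Real.rpow_pos_of_pos hc r), Real.rpow_neg hc.le, div_eq_inv_mul]
  refine ⟨{ f := fun t => (ff K M (t / cv K M) : ℂ)
            g := fun t => (ff K (du K M) (t / cv K (du K M)) : ℂ)
            k := 1
            ε := 1
            f₀ := ((volume.real (Fd K) : ℝ) : ℂ)
            g₀ := ((volume.real (Fd K) : ℝ) : ℂ)
            hf_int := hloc M hM hcv
            hg_int := hloc (du K M) hd hcv'
            hk := one_pos
            hε := one_ne_zero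
            h_feq := fun x hx => by
              have hx0 : (0 : ℝ) < x := hx
              simp only [Real.rpow_one, smul_eq_mul]
              have e1 : 1 / x / cv K M = 1 / (x * cv K M) := by rw [div_div]
              have e2 : x / cv K (du K M) = x * cv K M := by
                rw [div_eq_iff hcv'.ne', mul_assoc, hmul, mul_one]
              rw [e1, e2, Pool.Agent.H63.HK.ff_feq K hTH hUI hYC hFD M hM (x * cv K M)
                (mul_pos hx0 hcv)]
              have e3 : (cv K M)⁻¹ * (x * cv K M) = x := by field_simp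
              rw [e3]
              push_cast
              ring
            hf_top := fun r => htop M hM hcv r
            hg_top := fun r => htop (du K M) hd hcv' r },
    fun t => rfl, fun t => rfl, rfl, rfl, rfl, rfl⟩

/-- a complex Mellin integral over `t > 1` as a real integral -/
theorem mellin_half (h : ℝ → ℝ) (hint : IntegrableOn (fun t : ℝ => h t * t ^ (-(1 / 2) : ℝ))
    (Ioi 1)) :
    MellinConvergent ((Ioi (1 : ℝ)).indicator fun t => (h t : ℂ)) (1 / 2) ∧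
    mellin ((Ioi (1 : ℝ)).indicator fun t => (h t : ℂ)) (1 / 2) =
      ((∫ t in Ioi (1 : ℝ), h t * t ^ (-(1 / 2) : ℝ) : ℝ) : ℂ) := by
  have e1 : (fun t : ℝ => (t : ℂ) ^ ((1 / 2 : ℂ) - 1) •
      (Ioi (1 : ℝ)).indicator (fun t => (h t : ℂ)) t) =
      (Ioi (1 : ℝ)).indicator (fun t : ℝ => ((h t * t ^ (-(1 / 2) : ℝ) : ℝ) : ℂ)) := by
    funext t
    by_cases ht : t ∈ Ioi (1 : ℝ)
    · rw [indicator_of_mem ht, indicator_of_mem ht, smul_eq_mul]
      have ht0 : (0 : ℝ) < t := lt_trans one_pos ht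
      push_cast
      rw [ofReal_cpow ht0.le]
      push_cast
      rw [mul_comm]
      congr 2
      norm_num
    · rw [indicator_of_notMem ht, indicator_of_notMem ht, smul_zero]
  have hsub : Ioi (1 : ℝ) ⊆ Ioi 0 := Ioi_subset_Ioi zero_le_one
  have h2 : IntegrableOn (fun t : ℝ => ((h t * t ^ (-(1 / 2) : ℝ) : ℝ) : ℂ)) (Ioi 1) :=
    hint.ofReal
  constructor
  · unfold MellinConvergent
    rw [e1]
    exact (integrable_indicator_iff measurableSet_Ioi).2 h2 |>.integrableOn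
  · unfold mellin
    rw [e1, setIntegral_indicator measurableSet_Ioi, inter_eq_self_of_subset_right hsub]
    exact integral_ofReal

/-- sums over the ideal classes -/
theorem sum_part (M : ClassGroup (𝓞 K) → FI K)
    (hM : ∀ c (I : (Ideal (𝓞 K))⁰), Pri K (M c) I ↔ ClassGroup.mk0 I = c)
    (ψ : CC K) (f : Ideal (𝓞 K) → ℂ) (hf : Summable (fun I : (Ideal (𝓞 K))⁰ =>
      ((ψ (ClassGroup.mk0 I) : ℂˣ) : ℂ) * f (I : Ideal (𝓞 K)))) :
    ∑ c, ((ψ c : ℂˣ) : ℂ) * ∑' I : {I : Ideal (𝓞 K) // Pri K (M c) I}, f I =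
      ∑' I : (Ideal (𝓞 K))⁰, ((ψ (ClassGroup.mk0 I) : ℂˣ) : ℂ) * f (I : Ideal (𝓞 K)) := by
  have hI : ∀ I : Ideal (𝓞 K), I ≠ ⊥ → I ∈ (Ideal (𝓞 K))⁰ := fun I h =>
    mem_nonZeroDivisors_of_ne_zero h
  let g : (Σ c, {I : Ideal (𝓞 K) // Pri K (M c) I}) → (Ideal (𝓞 K))⁰ :=
    fun x => ⟨x.2.1, hI _ x.2.2.1⟩
  have hg : Function.Bijective g := by
    constructor
    · rintro ⟨c, I, hc⟩ ⟨c', I', hc'⟩ h
      have h1 : I = I' := congrArg (fun x : (Ideal (𝓞 K))⁰ => (x : Ideal (𝓞 K))) h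
      subst h1
      have h2 := (hM c ⟨I, hI _ hc.1⟩).1 hc
      have h3 := (hM c' ⟨I, hI _ hc.1⟩).1 hc'
      have h4 : c = c' := h2.symm.trans h3
      subst h4
      rfl
    · intro I
      exact ⟨⟨ClassGroup.mk0 I, I, (hM _ I).2 rfl⟩, rfl⟩
  let E := Equiv.ofBijective g hg
  have h1 : Summable (fun x : (Σ c, {I : Ideal (𝓞 K) // Pri K (M c) I}) =>
      ((ψ (ClassGroup.mk0 (E x)) : ℂˣ) : ℂ) * f ((E x : (Ideal (𝓞 K))⁰) : Ideal (𝓞 K))) :=
    E.summable_iff.2 hf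
  rw [← E.tsum_eq, h1.tsum_sigma, tsum_fintype]
  refine Finset.sum_congr rfl fun c _ => ?_
  rw [← tsum_mul_left]
  refine tsum_congr fun I => ?_
  have h5 : ClassGroup.mk0 (E ⟨c, I⟩) = c := (hM c (E ⟨c, I⟩)).1 I.2
  rw [h5]
  rfl

end

open scoped Classical in
theorem pf_lf (hTH : T_TH) (hUI : T_UI) (hFD : T_FD) (hCT : T_CT) (hDC : T_DC)
    (hDU : T_DU) (hYC : T_YC) (hME : T_ME) (hDS : T_DS) (hIF : T_IF) : T_LF := by
  intro K _ _ M hM0 hMP ψ hψ
  have hd0 : ∀ c, du K (M c) ≠ 0 := fun c => (hDU K (M c) (hM0 c)).1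
  choose P hPf hPg hPk hPε hPf0 hPg0 using
    fun c => exists_pair K hTH hUI hFD hCT hDC hDU hYC (M c) (hM0 c)
  obtain ⟨D, hD⟩ : ∃ D : ℝ, D = |(discr K : ℝ)| := ⟨_, rfl⟩
  have hD0 : 0 < D := by rw [hD]; exact abs_pos.2 (by exact_mod_cast discr_ne_zero K)
  have hDc : ((D : ℝ) : ℂ) ≠ 0 := by exact_mod_cast hD0.ne'
  have hcw : ((cw K : ℝ) : ℂ) ≠ 0 := by
    unfold cw
    have h1 : (torsionOrder K : ℝ) ≠ 0 := by
      exact_mod_cast (torsionOrder_pos K).ne'
    exact_mod_cast mul_ne_zero h1 (inv_ne_zero (pow_ne_zero _ two_ne_zero))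
  -- orthogonality
  have hsum0 : ∑ c, ((ψ c : ℂˣ) : ℂ) = 0 := by
    have h1 : ∃ a, ψ a ≠ 1 := by
      by_contra h
      push Not at h
      exact hψ (MonoidHom.ext h)
    obtain ⟨a, ha⟩ := h1
    have h2 : ((ψ a : ℂˣ) : ℂ) * ∑ c, ((ψ c : ℂˣ) : ℂ) = ∑ c, ((ψ c : ℂˣ) : ℂ) := by
      rw [Finset.mul_sum]
      refine Fintype.sum_bijective (fun c => a * c) (Group.mulLeft_bijective a) _ _ fun c => ?_
      rw [map_mul, Units.val_mul]
    have h3 : (((ψ a : ℂˣ) : ℂ) - 1) * ∑ c, ((ψ c : ℂˣ) : ℂ) = 0 := by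
      rw [sub_mul, h2, one_mul, sub_self]
    rcases mul_eq_zero.1 h3 with h4 | h4
    · exact absurd (Units.ext (by rw [Units.val_one]; exact sub_eq_zero.1 h4)) ha
    · exact h4
  -- the completed functions
  obtain ⟨num, hnum⟩ : ∃ num : ℂ → ℂ, num = fun s => ∑ c, ((ψ c : ℂˣ) : ℂ) * (P c).Λ₀ s :=
    ⟨_, rfl⟩
  have hnumd : Differentiable ℂ num := by
    rw [hnum]
    exact Differentiable.fun_sum fun c _ => ((P c).differentiable_Λ₀).const_mul _
  have hnumΛ : ∀ s : ℂ, num s = ∑ c, ((ψ c : ℂˣ) : ℂ) * (P c).Λ s := by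
    intro s
    rw [hnum]
    simp only
    have h1 : ∀ c, (P c).Λ₀ s = (P c).Λ s + ((1 / s) • ((volume.real (Fd K) : ℝ) : ℂ) +
        (1 / ((1 : ℝ) - s)) • ((volume.real (Fd K) : ℝ) : ℂ)) := by
      intro c
      rw [(P c).Λ₀_eq, hPf0, hPg0, hPk, hPε, add_assoc]
    obtain ⟨κ, hκ⟩ : ∃ κ : ℂ, κ = (1 / s) • ((volume.real (Fd K) : ℝ) : ℂ) +
        (1 / ((1 : ℝ) - s)) • ((volume.real (Fd K) : ℝ) : ℂ) := ⟨_, rfl⟩
    rw [← hκ] at h1
    simp_rw [h1, mul_add, Finset.sum_add_distrib]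
    rw [← Finset.sum_mul, hsum0, zero_mul, add_zero]
  -- the Dirichlet series
  have hΛ : ∀ c (s : ℂ), 1 < s.re → (P c).Λ s = ((cw K : ℝ) : ℂ) * gK K s * ((D : ℝ) : ℂ) ^ (s / 2) *
      ∑' I : {I : Ideal (𝓞 K) // Pri K (M c) I}, (Ideal.absNorm I.1 : ℂ) ^ (-s) := by
    intro c s hs
    have hcv := cv_pos K hDU (hM0 c)
    have hN0 : (0 : ℝ) < FractionalIdeal.absNorm (M c) := (hDU K (M c) (hM0 c)).2.2.2.1
    have h1 := ((P c).hasMellin (s := s) (by rw [hPk]; exact hs)).2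
    rw [← h1]
    have h2 : (fun x => (P c).f x - (P c).f₀) = fun t => (fun u : ℝ => (ff K (M c) u : ℂ) -
        (volume.real (Fd K) : ℝ)) (t * (cv K (M c))⁻¹) := by
      funext t
      rw [hPf, hPf0, div_eq_mul_inv]
    rw [h2, mellin_comp_mul_right (fun u : ℝ => (ff K (M c) u : ℂ) - (volume.real (Fd K) : ℝ)) s
      (inv_pos.2 hcv), hME K (M c) (hM0 c) s hs, smul_eq_mul]
    obtain ⟨N, hN⟩ : ∃ N : ℝ, N = (FractionalIdeal.absNorm (M c) : ℝ) := ⟨_, rfl⟩
    rw [← hN] at hN0 ⊢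
    have hcvD : cv K (M c) = Real.exp (Real.log D / 2 + Real.log N) := by
      unfold cv
      rw [← hD, ← hN, Real.exp_add, Real.exp_log hN0, Real.sqrt_eq_rpow,
        Real.rpow_def_of_pos hD0]
      ring_nf
    have e1 : (((cv K (M c))⁻¹ : ℝ) : ℂ) ^ (-s) = cexp ((Real.log D / 2 + Real.log N) * s) := by
      rw [hcvD, ← Real.exp_neg, cpow_def_of_ne_zero (by exact_mod_cast (Real.exp_pos _).ne'),
        ← ofReal_log (Real.exp_pos _).le, Real.log_exp]
      congr 1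
      push_cast
      ring
    have e2 : ((N : ℝ) : ℂ) ^ (-s) = cexp (-(Real.log N) * s) := by
      rw [cpow_def_of_ne_zero (by exact_mod_cast hN0.ne'), ← ofReal_log hN0.le]
      congr 1
      push_cast
      ring
    have e3 : ((D : ℝ) : ℂ) ^ (s / 2) = cexp ((Real.log D / 2) * s) := by
      rw [cpow_def_of_ne_zero hDc, ← ofReal_log hD0.le]
      congr 1
      push_cast
      ring
    have e4 : (((cv K (M c))⁻¹ : ℝ) : ℂ) ^ (-s) * ((N : ℝ) : ℂ) ^ (-s) =
        ((D : ℝ) : ℂ) ^ (s / 2) := by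
      rw [e1, e2, e3, ← Complex.exp_add]
      congr 1
      ring
    rw [← e4]
    unfold cw
    push_cast
    ring
  obtain ⟨L, hL⟩ : ∃ L : ℂ → ℂ, L = fun s => ((cw K : ℝ) : ℂ)⁻¹ * ((D : ℝ) : ℂ) ^ (-(s / 2)) *
    (gK K s)⁻¹ * num s := ⟨_, rfl⟩
  refine ⟨L, ⟨?_, ?_⟩, ?_⟩
  · rw [hL]
    have h1 : Differentiable ℂ (fun s : ℂ => ((D : ℝ) : ℂ) ^ (-(s / 2))) := by
      intro s
      exact DifferentiableAt.const_cpow (by fun_prop) (Or.inl hDc)
    exact ((h1.const_mul _).mul (gK_inv_differentiable K)).mul hnumd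
  · intro s hs
    have hsum : Summable (fun I : (Ideal (𝓞 K))⁰ => ((ψ (ClassGroup.mk0 I) : ℂˣ) : ℂ) *
        (Ideal.absNorm (I : Ideal (𝓞 K)) : ℂ) ^ (-s)) := by
      have h1 := (hDS K s hs).1
      let e : (Ideal (𝓞 K))⁰ ≃ {I : Ideal (𝓞 K) // I ≠ ⊥} :=
        Equiv.subtypeEquivRight fun I => mem_nonZeroDivisors_iff_ne_zero
      have h2 := e.summable_iff.2 h1
      have hfin : Finite (CC K) := by
        have := (CommGroup.monoidHom_mulEquiv_of_hasEnoughRootsOfUnity (ClassGroup (𝓞 K)) ℂ)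
        exact Finite.of_equiv _ this.some.symm.toEquiv
      have hnorm : ∀ c, ‖((ψ c : ℂˣ) : ℂ)‖ = 1 := by
        intro c
        have h3 : c ^ Fintype.card (ClassGroup (𝓞 K)) = 1 := pow_card_eq_one
        have h4 : ((ψ c : ℂˣ) : ℂ) ^ Fintype.card (ClassGroup (𝓞 K)) = 1 := by
          rw [← Units.val_pow_eq_pow_val, ← map_pow, h3, map_one, Units.val_one]
        exact norm_eq_one_of_pow_eq_one h4 Fintype.card_ne_zero
      refine Summable.of_norm ?_
      refine h2.congr fun I => ?_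
      rw [norm_mul, hnorm, one_mul]
      rfl
    have h1 := sum_part K M hMP ψ (fun I => (Ideal.absNorm I : ℂ) ^ (-s)) hsum
    have h2 : L s = ∑' I : (Ideal (𝓞 K))⁰, ((ψ (ClassGroup.mk0 I) : ℂˣ) : ℂ) *
        (Ideal.absNorm (I : Ideal (𝓞 K)) : ℂ) ^ (-s) := by
      rw [← h1, hL]
      simp only
      rw [hnumΛ s, Finset.mul_sum]
      refine Finset.sum_congr rfl fun c _ => ?_
      rw [hΛ c s hs]
      have h3 : ((D : ℝ) : ℂ) ^ (-(s / 2)) * ((D : ℝ) : ℂ) ^ (s / 2) = 1 := by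
        rw [← cpow_add _ _ hDc, neg_add_cancel, cpow_zero]
      have h4 : (gK K s)⁻¹ * gK K s = 1 := inv_mul_cancel₀ (gK_ne_of_re K hs)
      have h5 : ((cw K : ℝ) : ℂ)⁻¹ * ((cw K : ℝ) : ℂ) = 1 := inv_mul_cancel₀ hcw
      calc ((cw K : ℝ) : ℂ)⁻¹ * ((D : ℝ) : ℂ) ^ (-(s / 2)) * (gK K s)⁻¹ *
            (((ψ c : ℂˣ) : ℂ) * (((cw K : ℝ) : ℂ) * gK K s * ((D : ℝ) : ℂ) ^ (s / 2) *
              ∑' I : {I : Ideal (𝓞 K) // Pri K (M c) I}, (Ideal.absNorm I.1 : ℂ) ^ (-s)))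
          = (((cw K : ℝ) : ℂ)⁻¹ * ((cw K : ℝ) : ℂ)) * ((gK K s)⁻¹ * gK K s) *
            (((D : ℝ) : ℂ) ^ (-(s / 2)) * ((D : ℝ) : ℂ) ^ (s / 2)) * (((ψ c : ℂˣ) : ℂ) *
              ∑' I : {I : Ideal (𝓞 K) // Pri K (M c) I}, (Ideal.absNorm I.1 : ℂ) ^ (-s)) := by
            ring
        _ = _ := by rw [h3, h4, h5, one_mul, one_mul, one_mul]
    rw [h2]
    exact hsum.hasSum
  · -- the central value
    have hval : ∀ c, (P c).Λ₀ (1 / 2) = ((Jr K (M c) : ℝ) : ℂ) := by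
      intro c
      obtain ⟨-, -, hi1, -, -⟩ := hIF K (M c) (hM0 c)
      obtain ⟨-, -, hi2, -, -⟩ := hIF K (du K (M c)) (hd0 c)
      obtain ⟨hA1, hA2⟩ := mellin_half _ hi1
      obtain ⟨hB1, hB2⟩ := mellin_half _ hi2
      obtain ⟨A, hA⟩ : ∃ A : ℝ → ℂ, A = (Ioi (1 : ℝ)).indicator
        (fun t => ((ff K (M c) (t / cv K (M c)) - volume.real (Fd K) : ℝ) : ℂ)) := ⟨_, rfl⟩
      obtain ⟨G, hG⟩ : ∃ G : ℝ → ℂ, G = (Ioi (1 : ℝ)).indicator
        (fun t => ((ff K (du K (M c)) (t / cv K (du K (M c))) - volume.real (Fd K) : ℝ) : ℂ)) :=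
        ⟨_, rfl⟩
      rw [← hA] at hA1 hA2
      rw [← hG] at hB1 hB2
      have hAf : ∀ t, A t = (Ioi (1 : ℝ)).indicator (fun x => (P c).f x - (P c).f₀) t := by
        intro t
        rw [hA]
        by_cases ht : t ∈ Ioi (1 : ℝ)
        · rw [indicator_of_mem ht, indicator_of_mem ht, hPf, hPf0]
          push_cast
          rfl
        · rw [indicator_of_notMem ht, indicator_of_notMem ht]
      have hGf : ∀ t, G t = (Ioi (1 : ℝ)).indicator (fun x => (P c).g x - (P c).g₀) t := by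
        intro t
        rw [hG]
        by_cases ht : t ∈ Ioi (1 : ℝ)
        · rw [indicator_of_mem ht, indicator_of_mem ht, hPg, hPg0]
          push_cast
          rfl
        · rw [indicator_of_notMem ht, indicator_of_notMem ht]
      -- the second half
      obtain ⟨B, hB⟩ : ∃ B : ℝ → ℂ, B = fun t : ℝ => (t : ℂ) ^ (-1 : ℂ) • G (t ^ (-1 : ℝ)) :=
        ⟨_, rfl⟩
      have hB3 : MellinConvergent B (1 / 2) := by
        rw [hB, MellinConvergent.cpow_smul, MellinConvergent.comp_rpow (by norm_num)]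
        convert hB1 using 1
        push_cast
        norm_num
      have hB4 : mellin B (1 / 2) = mellin G (1 / 2) := by
        rw [hB, mellin_cpow_smul, mellin_comp_rpow]
        norm_num
      have hfm : mellin (P c).f_modif (1 / 2) = mellin (fun t => A t + B t) (1 / 2) := by
        unfold mellin
        refine setIntegral_congr_fun measurableSet_Ioi fun t ht => ?_
        have ht0 : (0 : ℝ) < t := ht
        have hkey : (P c).f_modif t = A t + B t := by
          rw [hB]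
          simp only
          rw [Real.rpow_neg_one, cpow_neg_one, smul_eq_mul]
          rcases lt_or_ge t 1 with h1 | h1
          · -- `t < 1`
            have hti : 1 < t⁻¹ := (one_lt_inv₀ ht0).2 h1
            have h2 := (P c).hf_modif_FE t⁻¹ (inv_pos.2 ht0)
            rw [one_div, inv_inv, hPε, hPk, Real.rpow_one, one_mul, smul_eq_mul] at h2
            rw [h2, hAf, hGf, indicator_of_notMem (notMem_Ioi.2 h1.le), zero_add,
              indicator_of_mem (mem_Ioi.2 hti)]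
            have h3 : (P c).g_modif t⁻¹ = (P c).g t⁻¹ - (P c).g₀ := by
              unfold WeakFEPair.g_modif
              rw [Pi.add_apply, indicator_of_mem (mem_Ioi.2 hti),
                indicator_of_notMem (notMem_Ioo_of_ge hti.le), add_zero]
            rw [h3]
            push_cast
            rfl
          · -- `1 ≤ t`
            have hti : t⁻¹ ≤ 1 := inv_le_one_of_one_le₀ h1
            rw [hGf, indicator_of_notMem (notMem_Ioi.2 hti), mul_zero, add_zero, hAf]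
            unfold WeakFEPair.f_modif
            rw [Pi.add_apply, indicator_of_notMem (notMem_Ioo_of_ge h1)
              (f := fun x : ℝ => (P c).f x - ((P c).ε * ↑(x ^ (-(P c).k))) • (P c).g₀), add_zero]
        simp only [hkey]
      have h0 : (P c).Λ₀ (1 / 2) = mellin (P c).f_modif (1 / 2) := rfl
      rw [h0, hfm, (hasMellin_add hA1 hB3).2, hB4, hA2, hB2]
      unfold Jr Ir
      push_cast
      rfl
    have hgK : gK K (1 / 2) ≠ 0 := by
      have h1 : Gammaℝ (1 / 2) ≠ 0 := Gammaℝ_ne_zero_of_re_pos (by norm_num)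
      have h2 : Gammaℂ (1 / 2) ≠ 0 := by
        rw [Gammaℂ_eq]
        exact mul_ne_zero h1 (Gammaℝ_ne_zero_of_re_pos (by norm_num))
      unfold gK
      exact mul_ne_zero (pow_ne_zero _ h1) (pow_ne_zero _ h2)
    rw [← hD, hL]
    simp only
    have h3 : ((D : ℝ) : ℂ) ^ ((1 / 4 : ℝ) : ℂ) * ((D : ℝ) : ℂ) ^ (-((1 / 2 : ℂ) / 2)) = 1 := by
      rw [← cpow_add _ _ hDc]
      have : ((1 / 4 : ℝ) : ℂ) + -((1 / 2 : ℂ) / 2) = 0 := by
        push_cast
        norm_num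
      rw [this, cpow_zero]
    have h4 : gK K (1 / 2) * (gK K (1 / 2))⁻¹ = 1 := mul_inv_cancel₀ hgK
    have h5 : ((cw K : ℝ) : ℂ) * ((cw K : ℝ) : ℂ)⁻¹ = 1 := mul_inv_cancel₀ hcw
    calc ((cw K : ℝ) : ℂ) * ((D : ℝ) : ℂ) ^ ((1 / 4 : ℝ) : ℂ) * gK K (1 / 2) *
          (((cw K : ℝ) : ℂ)⁻¹ * ((D : ℝ) : ℂ) ^ (-((1 / 2 : ℂ) / 2)) * (gK K (1 / 2))⁻¹ *
            num (1 / 2))
        = (((cw K : ℝ) : ℂ) * ((cw K : ℝ) : ℂ)⁻¹) * (((D : ℝ) : ℂ) ^ ((1 / 4 : ℝ) : ℂ) *
            ((D : ℝ) : ℂ) ^ (-((1 / 2 : ℂ) / 2))) * (gK K (1 / 2) * (gK K (1 / 2))⁻¹) *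
            num (1 / 2) := by ring
      _ = num (1 / 2) := by rw [h3, h4, h5, one_mul, one_mul, one_mul]
      _ = _ := by
          rw [hnum, finsum_eq_sum_of_fintype]
          simp only [hval]

end Pool.Agent.H95.CG
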