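import Pool.Agent.H95.CG.Targets
import Pool.Agent.H3.HK.GA
import Pool.Agent.H16.HK.GS

/-!
# (PC) the packing bound for matrices
-/

set_option autoImplicit false

open MeasureTheory Set Filter Complex

namespace Pool.Agent.H95.CG

open Pool.Agent.H25.HK

theorem finite_lt {ι : Type} [Fintype ι] {S : Matrix ι ι ℝ} (hS : S.PosDef) (r : ℝ) :
    {m : ι → ℤ | qz S m < r}.Finite := by
  obtain ⟨c, hc, h⟩ := Pool.Agent.H16.HK.qf_lower hS
  obtain ⟨N, hN⟩ := exists_nat_gt (r / c)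
  refine Set.Finite.subset (Set.Finite.pi (fun _ : ι => Set.finite_Icc (-(N : ℤ)) (N : ℤ))) ?_
  intro m hm i _
  have h1 : c * ∑ i, (m i : ℝ) ^ 2 < r := lt_of_le_of_lt (h fun i => (m i : ℝ)) hm
  have h2 : ∑ i, (m i : ℝ) ^ 2 < N := by
    have : ∑ i, (m i : ℝ) ^ 2 < r / c := by
      rw [lt_div_iff₀ hc, mul_comm]
      exact h1
    linarith
  have h3 : (m i : ℝ) ^ 2 ≤ ∑ i, (m i : ℝ) ^ 2 :=
    Finset.single_le_sum (f := fun i => (m i : ℝ) ^ 2) (fun _ _ => sq_nonneg _)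
      (Finset.mem_univ i)
  have h4 : (m i) ^ 2 < (N : ℤ) := by
    have : (m i : ℝ) ^ 2 < N := by linarith
    exact_mod_cast this
  constructor
  · nlinarith [Int.natCast_nonneg N]
  · nlinarith [Int.natCast_nonneg N]

/-- the general form: a finite set of integral vectors, all in a subspace `V` -/
theorem pack_mat (hPK : T_PK) {ι : Type} [Fintype ι] [DecidableEq ι] {S : Matrix ι ι ℝ}
    (hS : S.PosDef) (s : Finset (ι → ℤ)) (V : Submodule ℝ (ι → ℝ)) (r a : ℝ) (hr : 0 < r)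
    (ha : 0 < a) (h1 : ∀ m ∈ s, qz S m ≤ r) (h2 : ∀ m ∈ s, ∀ m' ∈ s, m ≠ m' → a ≤ qz S (m - m'))
    (h3 : ∀ m ∈ s, (fun i => (m i : ℝ)) ∈ V) :
    (s.card : ℝ) ≤ (1 + 2 * Real.sqrt (r / a)) ^ Module.finrank ℝ V := by
  obtain ⟨A, hA, hSA⟩ := Pool.Agent.H3.HK.exists_factor S hS
  -- the linear map
  let f : (ι → ℝ) →ₗ[ℝ] EuclideanSpace ℝ ι :=
    (WithLp.linearEquiv 2 ℝ (ι → ℝ)).symm.toLinearMap ∘ₗ Matrix.toLin' A
  have hf : ∀ x, ‖f x‖ ^ 2 = qf S x := by
    intro x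
    rw [hSA, Pool.Agent.H3.HK.qf_factor, EuclideanSpace.norm_sq_eq]
    refine Finset.sum_congr rfl fun i _ => ?_
    have : f x i = A.mulVec x i := rfl
    rw [this, Real.norm_eq_abs, sq_abs]
  have hfn : ∀ m : ι → ℤ, ‖f (fun i => (m i : ℝ))‖ = Real.sqrt (qz S m) := by
    intro m
    rw [qz, ← hf, Real.sqrt_sq (norm_nonneg _)]
  have hsub : ∀ m m' : ι → ℤ, f (fun i => (m i : ℝ)) - f (fun i => (m' i : ℝ)) =
      f (fun i => ((m - m') i : ℝ)) := by
    intro m m'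
    rw [← map_sub]
    congr 1
    funext i
    simp
  let E : Submodule ℝ (EuclideanSpace ℝ ι) := V.map f
  have hmem : ∀ m ∈ s, f (fun i => (m i : ℝ)) ∈ E := fun m hm =>
    Submodule.mem_map_of_mem (h3 m hm)
  classical
  let g : {m // m ∈ s} → E := fun m => ⟨f (fun i => (m.1 i : ℝ)), hmem m.1 m.2⟩
  have hdist : ∀ m m' : {m // m ∈ s}, m ≠ m' → Real.sqrt a ≤ ‖g m - g m'‖ := by
    intro m m' h
    have e : ‖g m - g m'‖ = ‖f (fun i => (m.1 i : ℝ)) - f (fun i => (m'.1 i : ℝ))‖ := rfl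
    rw [e, hsub, hfn]
    exact Real.sqrt_le_sqrt (h2 m.1 m.2 m'.1 m'.2 (fun h' => h (Subtype.ext h')))
  have hinj : Function.Injective g := by
    intro m m' h
    by_contra hne
    have := hdist m m' hne
    rw [h, sub_self, norm_zero] at this
    have := Real.sqrt_pos.2 ha
    linarith
  have hcard : (Finset.univ.image g).card = s.card := by
    rw [Finset.card_image_of_injective _ hinj, Finset.card_univ, Fintype.card_coe]
  have hmain := hPK E (Finset.univ.image g) (Real.sqrt r) (Real.sqrt a) (Real.sqrt_pos.2 ha)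
    (Real.sqrt_nonneg _) (by
      intro x hx
      obtain ⟨m, -, rfl⟩ := Finset.mem_image.1 hx
      have e : ‖g m‖ = ‖f (fun i => (m.1 i : ℝ))‖ := rfl
      rw [e, hfn]
      exact Real.sqrt_le_sqrt (h1 m.1 m.2)) (by
      intro x hx y hy hxy
      obtain ⟨m, -, rfl⟩ := Finset.mem_image.1 hx
      obtain ⟨m', -, rfl⟩ := Finset.mem_image.1 hy
      exact hdist m m' (fun h => hxy (by rw [h])))
  rw [hcard] at hmain
  have e1 : 2 * Real.sqrt r / Real.sqrt a = 2 * Real.sqrt (r / a) := by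
    rw [Real.sqrt_div hr.le]
    ring
  rw [e1] at hmain
  refine hmain.trans (pow_le_pow_right₀ ?_ ?_)
  · have := Real.sqrt_nonneg (r / a)
    linarith
  · exact Submodule.finrank_map_le f V

theorem pf_pc (hPK : T_PK) : T_PC := by
  intro ι _ _ S hS
  refine ⟨finite_lt hS, fun r a hr hLB => ?_⟩
  have hfin := finite_lt hS r
  have hc : cnt S r = hfin.toFinset.card := by
    unfold cnt
    exact Nat.card_eq_card_finite_toFinset hfin
  rw [hc]
  refine pack_mat hPK hS hfin.toFinset (sp S r) r a hr hLB.1 ?_ ?_ ?_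
  · intro m hm
    exact ((Set.Finite.mem_toFinset hfin).1 hm).le
  · intro m _ m' _ hne
    exact hLB.2 _ (sub_ne_zero.2 hne)
  · intro m hm
    exact Submodule.subset_span ⟨m, (Set.Finite.mem_toFinset hfin).1 hm, rfl⟩

end Pool.Agent.H95.CG
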