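import Pool.Agent.H95.CG.Targets
import Pool.Agent.H63.HK.CS

/-!
# (RC) representatives of the ideal classes
-/

set_option autoImplicit false

open NumberField NumberField.InfinitePlace NumberField.Units
  NumberField.Units.dirichletUnitTheorem MeasureTheory Set Filter Complex
open scoped nonZeroDivisors ENNReal

namespace Pool.Agent.H95.CG

open Pool.Agent.H25.HK

theorem pf_rc (h : T_DU) : T_RC := by
  classical
  intro K _ _
  choose F hF using fun c : ClassGroup (𝓞 K) => ClassGroup.mk0_surjective c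
  obtain ⟨U, hU1, hU⟩ : ∃ U : ClassGroup (𝓞 K) → (FI K)ˣ, U 1 = 1 ∧
      ∀ c, ClassGroup.mk (K := K) (U c) = c⁻¹ := by
    refine ⟨fun c => if c = 1 then 1 else FractionalIdeal.mk0 K (F c⁻¹), by simp, fun c => ?_⟩
    by_cases hc : c = 1
    · simp [hc]
    · simp only [hc, if_false]
      rw [ClassGroup.mk_mk0, hF]
  obtain ⟨hd1, -, -, -, -⟩ := h K 1 one_ne_zero
  obtain ⟨D, hD⟩ : ∃ D : (FI K)ˣ, (D : FI K) = Pool.Agent.H25.HK.du K 1 :=
    ⟨Units.mk0 _ hd1, rfl⟩
  have key : ∀ c, Pool.Agent.H25.HK.du K (U c : FI K) = (((U c)⁻¹ * D : (FI K)ˣ) : FI K) := by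
    intro c
    obtain ⟨-, -, h3, -, -⟩ := h K (U c : FI K) (Units.ne_zero _)
    rw [h3, Units.val_mul, hD, Units.val_inv_eq_inv_val]
  have hI : ∀ I : (Ideal (𝓞 K))⁰, (I : Ideal (𝓞 K)) ≠ ⊥ := fun I =>
    nonZeroDivisors.coe_ne_zero I
  refine ⟨fun c => (U c : FI K), (ClassGroup.mk (K := K) D)⁻¹, by simp [hU1],
    fun c => Units.ne_zero _, ?_, ?_⟩
  · intro c I
    rw [Pool.Agent.H63.HK.pri_iff K (U c) I (hI I), hU]
    exact mul_inv_eq_one
  · intro c I
    rw [key, Pool.Agent.H63.HK.pri_iff K _ I (hI I), map_mul, map_inv, hU, inv_inv]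
    have e : Pool.Agent.H63.HK.nzI K I (hI I) = I := rfl
    rw [e, mul_eq_one_iff_eq_inv, mul_inv, mul_comm]

end Pool.Agent.H95.CG
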