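import Pool.Agent.H95.CG.Targets

/-!
# (RG) the volume of the fundamental domain is the regulator
-/

set_option autoImplicit false

open NumberField NumberField.InfinitePlace NumberField.Units
  NumberField.Units.dirichletUnitTheorem MeasureTheory Set Filter Complex
open scoped nonZeroDivisors ENNReal

namespace Pool.Agent.H95.CG

open Pool.Agent.H25.HK

open scoped Classical in
theorem pf_rg : T_RG := by
  intro K _ _
  unfold Units.regulator
  have h := ZLattice.covolume_eq_measure_fundamentalDomain (unitLattice K) volume
    (F := Fd K) (by
      have h1 := ZLattice.isAddFundamentalDomain (L := unitLattice K) (basisUnitLattice K) volume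
      exact h1)
  rw [h]

end Pool.Agent.H95.CG
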