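import Pool.Agent.H95.CG.Targets

/-!
# (SB) the square of the contribution of a class
-/

set_option autoImplicit false

open NumberField NumberField.InfinitePlace NumberField.Units
  NumberField.Units.dirichletUnitTheorem MeasureTheory Set Filter Complex
open scoped nonZeroDivisors ENNReal

namespace Pool.Agent.H95.CG

open Pool.Agent.H25.HK

/-- the Cauchy-Schwarz inequality against the constant function -/
theorem cs_const {α : Type*} [MeasurableSpace α] (μ : Measure α) (f : α → ℝ≥0∞)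
    (hf : AEMeasurable f μ) : (∫⁻ a, f a ∂μ) ^ 2 ≤ μ univ * ∫⁻ a, f a ^ 2 ∂μ := by
  have h := ENNReal.lintegral_mul_le_Lp_mul_Lq μ (p := 2) (q := 2)
    (by constructor <;> norm_num) (f := f) (g := fun _ => 1) hf aemeasurable_const
  simp only [Pi.mul_apply, mul_one, ENNReal.one_rpow, lintegral_one] at h
  have h2 := pow_le_pow_left' h 2
  refine h2.trans (le_of_eq ?_)
  have e : ∀ x : ℝ≥0∞, (x ^ (1 / (2 : ℝ))) ^ 2 = x := by
    intro x
    rw [← ENNReal.rpow_natCast, ← ENNReal.rpow_mul]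
    norm_num
  rw [mul_pow, e, e, mul_comm]
  congr 1
  refine lintegral_congr fun a => ?_
  rw [← ENNReal.rpow_natCast]
  norm_num

open scoped Classical in
theorem pf_sb (hKK : T_KK) (hMX : T_MX) (hIF : T_IF) (hZM : T_ZM) (hPD : T_PD) (hFD : T_FD)
    (hDU : T_DU) : T_SB := by
  intro n hn
  obtain ⟨C, hC, hK⟩ := hKK n hn
  refine ⟨C, hC, ?_⟩
  intro K _ _ hKn M hM σ hσ0 hσ1
  have hn0 : (1 : ℝ) ≤ n := by exact_mod_cast hn
  obtain ⟨D, hD⟩ : ∃ D : ℝ, D = |(discr K : ℝ)| := ⟨_, rfl⟩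
  have hD1 : 1 ≤ D := by
    rw [hD]
    have h1 : 1 ≤ |discr K| := Int.one_le_abs (discr_ne_zero K)
    exact_mod_cast h1
  have hD0 : 0 < D := by linarith
  have hlD : 0 ≤ Real.log D := Real.log_nonneg hD1
  have hdu := (hDU K M hM).1
  obtain ⟨hI0, -, -, hIeq, hImeas⟩ := hIF K M hM
  -- the function on the torus
  obtain ⟨P, hP⟩ : ∃ P : logSpace K → ℝ≥0∞, P = fun z => ∫⁻ t in Ioi (1 : ℝ),
      ENNReal.ofReal ((tn K M t z - 1) * t ^ (-(1 / 2) : ℝ)) := ⟨_, rfl⟩
  obtain ⟨E1, hE1⟩ : ∃ E1 : logSpace K → ℝ≥0∞, E1 = fun z => ∫⁻ t in Ioi (0 : ℝ),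
      ENNReal.ofReal ((tn K M t z - 1) * t ^ σ) := ⟨_, rfl⟩
  obtain ⟨E2, hE2⟩ : ∃ E2 : logSpace K → ℝ≥0∞, E2 = fun z => ∫⁻ t in Ioi (0 : ℝ),
      ENNReal.ofReal ((tn K (du K M) t (-z) - 1) * t ^ σ) := ⟨_, rfl⟩
  obtain ⟨δ, hδ⟩ : ∃ δ : ℝ, δ = D ^ (-(1 / (n : ℝ))) := ⟨_, rfl⟩
  have hδ1 : δ ≤ 1 := by
    rw [hδ]
    refine Real.rpow_le_one_of_one_le_of_nonpos hD1 ?_
    have : 0 ≤ 1 / (n : ℝ) := by positivity
    linarith
  have hδlog : Real.log δ⁻¹ ≤ Real.log D := by
    rw [Real.log_inv, hδ, Real.log_rpow hD0]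
    have h1 : 1 / (n : ℝ) ≤ 1 := by
      rw [div_le_one (by linarith)]
      exact hn0
    nlinarith
  have hδlog0 : 0 ≤ Real.log δ⁻¹ := by
    have hδ0 : 0 < δ := by rw [hδ]; positivity
    exact Real.log_nonneg ((one_le_inv₀ hδ0).2 hδ1)
  have hpt : ∀ z, P z ^ 2 ≤ ENNReal.ofReal (C * (1 + Real.log D) ^ 2) * (E1 z + E2 z) := by
    intro z
    obtain ⟨ι, _, _, S, hcard, hS, hdet, hS1, hS2, hLB, -⟩ := hMX K M hM z
    have hcard' : Fintype.card ι = n := hcard.trans hKn
    have h1 := hK ι S hcard' hS hdet δ σ hδ1 (by rw [hδ, hD, ← hKn]; exact hLB) hσ0.le hσ1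
    have hPz : P z = PI S := by
      rw [hP]
      unfold PI
      simp only
      refine setLIntegral_congr_fun measurableSet_Ioi fun t ht => ?_
      have ht0 : (0 : ℝ) < t := lt_trans one_pos ht
      rw [hS1 t ht0, hcard]
    have hE1z : E1 z = EI S σ := by
      rw [hE1]
      unfold EI
      simp only
      refine setLIntegral_congr_fun measurableSet_Ioi fun t ht => ?_
      rw [hS1 t ht, hcard]
    have hE2z : E2 z = EI S⁻¹ σ := by
      rw [hE2]
      unfold EI
      simp only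
      refine setLIntegral_congr_fun measurableSet_Ioi fun t ht => ?_
      rw [hS2 t ht, hcard]
    rw [hPz, hE1z, hE2z]
    refine h1.trans ?_
    gcongr
  -- measurability
  have hPm : Measurable P := by
    rw [hP]
    obtain ⟨g, hg⟩ : ∃ g : ℝ → ℝ, g = fun t => |t| ^ (-(1 / 2) : ℝ) := ⟨_, rfl⟩
    have hgm : Measurable g := by
      rw [hg]
      exact (measurable_id.abs).pow_const _
    have h1 := (hImeas g hgm (fun t => by rw [hg]; exact Real.rpow_nonneg (abs_nonneg _) _)).1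
    convert h1 using 2 with z
    refine setLIntegral_congr_fun measurableSet_Ioi fun t ht => ?_
    have ht0 : (0 : ℝ) < t := lt_trans one_pos ht
    simp only [hg, abs_of_pos ht0]
  have hE1m : Measurable E1 := by
    rw [hE1]
    obtain ⟨g, hg⟩ : ∃ g : ℝ → ℝ, g = fun t => |t| ^ σ := ⟨_, rfl⟩
    have hgm : Measurable g := by
      rw [hg]
      exact (measurable_id.abs).pow_const _
    have h1 := (hImeas g hgm (fun t => by rw [hg]; exact Real.rpow_nonneg (abs_nonneg _) _)).2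
    convert h1 using 2 with z
    refine setLIntegral_congr_fun measurableSet_Ioi fun t ht => ?_
    have ht0 : (0 : ℝ) < t := ht
    simp only [hg, abs_of_pos ht0]
  -- the integrals
  have hs : (1 : ℝ) < 1 + σ := by linarith
  have e1 : (1 + σ) - 1 = σ := by ring
  have hpos : 0 ≤ cw K * gr K (1 + σ) * D ^ ((1 + σ) / 2) := by
    have h1 := (hZM K M hM (1 + σ) hs).1
    have h2 : 0 ≤ cw K := by unfold cw; positivity
    positivity
  have hpz : ∀ M' : FI K, 0 ≤ pz K M' (1 + σ) := fun M' =>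
    tsum_nonneg fun I => Real.rpow_nonneg (Nat.cast_nonneg _) _
  have hi1 : ∫⁻ z in Fd K, E1 z = ENNReal.ofReal (cw K * gr K (1 + σ) * D ^ ((1 + σ) / 2) *
      pz K M (1 + σ)) := by
    have h1 := (hZM K M hM (1 + σ) hs).2.2
    rw [e1, ← hD] at h1
    rw [hE1]
    exact h1
  have hi2 : ∫⁻ z in Fd K, E2 z = ENNReal.ofReal (cw K * gr K (1 + σ) * D ^ ((1 + σ) / 2) *
      pz K (du K M) (1 + σ)) := by
    have h1 := (hZM K (du K M) hdu (1 + σ) hs).2.2
    rw [e1, ← hD] at h1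
    rw [hE2, ← h1]
    obtain ⟨g, hg⟩ : ∃ g : ℝ → ℝ, g = fun t => |t| ^ σ := ⟨_, rfl⟩
    have hgm : Measurable g := by
      rw [hg]
      exact (measurable_id.abs).pow_const _
    have h2 := hPD K (du K M) hdu (Ioi 0) g measurableSet_Ioi hgm
      (fun t => by rw [hg]; exact Real.rpow_nonneg (abs_nonneg _) _)
    have h3 : ∀ z : logSpace K, ∫⁻ t in Ioi (0 : ℝ), ENNReal.ofReal
        ((tn K (du K M) t z - 1) * g t) = ∫⁻ t in Ioi (0 : ℝ), ENNReal.ofReal
        ((tn K (du K M) t z - 1) * t ^ σ) := by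
      intro z
      refine setLIntegral_congr_fun measurableSet_Ioi fun t ht => ?_
      have ht0 : (0 : ℝ) < t := ht
      simp only [hg, abs_of_pos ht0]
    simp only [h3] at h2
    exact h2
  have hvol : volume (Fd K) = ENNReal.ofReal (volume.real (Fd K)) := by
    rw [Measure.real, ENNReal.ofReal_toReal (hFD K).2.2.2.1.ne]
  -- assembly
  have hmain : ENNReal.ofReal (Ir K M) ^ 2 ≤ ENNReal.ofReal (volume.real (Fd K)) *
      (ENNReal.ofReal (C * (1 + Real.log D) ^ 2) *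
        ENNReal.ofReal (cw K * gr K (1 + σ) * D ^ ((1 + σ) / 2) *
          (pz K M (1 + σ) + pz K (du K M) (1 + σ)))) := by
    have h1 : ENNReal.ofReal (Ir K M) = ∫⁻ z in Fd K, P z := by
      rw [hIeq, hP]
    rw [h1]
    refine (cs_const (volume.restrict (Fd K)) P hPm.aemeasurable).trans ?_
    rw [Measure.restrict_apply_univ, hvol]
    refine mul_le_mul_right ?_ _
    calc ∫⁻ z in Fd K, P z ^ 2
        ≤ ∫⁻ z in Fd K, ENNReal.ofReal (C * (1 + Real.log D) ^ 2) * (E1 z + E2 z) :=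
          lintegral_mono fun z => hpt z
      _ = ENNReal.ofReal (C * (1 + Real.log D) ^ 2) * ∫⁻ z in Fd K, (E1 z + E2 z) :=
          lintegral_const_mul' _ _ ENNReal.ofReal_ne_top
      _ = ENNReal.ofReal (C * (1 + Real.log D) ^ 2) *
          ((∫⁻ z in Fd K, E1 z) + ∫⁻ z in Fd K, E2 z) := by
          rw [lintegral_add_left hE1m]
      _ = _ := by
          rw [hi1, hi2, ← ENNReal.ofReal_add (mul_nonneg hpos (hpz _))
            (mul_nonneg hpos (hpz _)), ← mul_add]
  rw [← ENNReal.ofReal_pow hI0, ← ENNReal.ofReal_mul (by positivity),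
    ← ENNReal.ofReal_mul measureReal_nonneg] at hmain
  have h9 := (ENNReal.ofReal_le_ofReal_iff (by
    have := add_nonneg (hpz M) (hpz (du K M))
    exact mul_nonneg measureReal_nonneg (mul_nonneg (by positivity) (mul_nonneg hpos this)))).1
    hmain
  rw [← hD]
  calc Ir K M ^ 2 ≤ _ := h9
    _ = _ := by ring

end Pool.Agent.H95.CG
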