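import Pool.Agent.H95.CG.EI

/-!
# (TA) the theta function beyond the minimum
-/

set_option autoImplicit false

open MeasureTheory Set Filter Complex
open scoped ENNReal

namespace Pool.Agent.H95.CG

open Pool.Agent.H25.HK

open scoped Classical in
theorem ts_sub_one (hPO : T_PO) {ι : Type} [Fintype ι] {S : Matrix ι ι ℝ}
    (hS : S.PosDef) {t : ℝ} (ht : 0 < t) :
    Summable (fun m : ι → ℤ => if m = 0 then 0 else Real.exp (-Real.pi * (t * qz S m))) ∧
    ts S t - 1 = ∑' m : ι → ℤ, if m = 0 then 0 else Real.exp (-Real.pi * (t * qz S m)) := by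
  have hs := summable_ts hPO hS ht
  have h1 := hs.tsum_eq_add_tsum_ite (0 : ι → ℤ)
  rw [qz_zero, mul_zero, mul_zero, Real.exp_zero] at h1
  constructor
  · refine Summable.of_nonneg_of_le (fun m => ?_) (fun m => ?_) hs
    · split_ifs
      · exact le_rfl
      · exact (Real.exp_pos _).le
    · split_ifs
      · exact (Real.exp_pos _).le
      · exact le_rfl
  · unfold ts
    rw [h1]
    ring

theorem cnt_min {ι : Type} [Fintype ι] {S : Matrix ι ι ℝ} {a : ℝ} (hLB : LB S a) :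
    cnt S a = 1 := by
  unfold cnt
  rw [Nat.card_eq_one_iff_unique]
  refine ⟨⟨fun x y => ?_⟩, ⟨⟨0, by rw [qz_zero]; exact hLB.1⟩⟩⟩
  have h : ∀ x : {m : ι → ℤ // qz S m < a}, x.1 = 0 := by
    intro x
    by_contra h
    exact absurd x.2 (not_lt.2 (hLB.2 x.1 h))
  exact Subtype.ext ((h x).trans (h y).symm)

theorem pf_ta (hPO : T_PO) (hCO : T_CO) : T_TA := by
  classical
  intro n
  obtain ⟨C, hC, hco⟩ := hCO n
  refine ⟨C, hC, ?_⟩
  intro ι _ _ S hcard hS a t hLB hat
  have ha := hLB.1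
  have hai : 0 < a⁻¹ := inv_pos.2 ha
  have ht : 0 < t := lt_of_lt_of_le hai hat
  obtain ⟨hs1, he1⟩ := ts_sub_one hPO hS ht
  obtain ⟨hs2, he2⟩ := ts_sub_one hPO hS hai
  have h1 := hco ι S hcard hS a⁻¹ hai
  rw [inv_inv, cnt_min hLB, Nat.cast_one, mul_one] at h1
  have hE : 0 < Real.exp (-Real.pi * (t * a - 1)) := Real.exp_pos _
  have h2 : ts S t - 1 ≤ Real.exp (-Real.pi * (t * a - 1)) * (ts S a⁻¹ - 1) := by
    rw [he1, he2, ← tsum_mul_left]
    refine hs1.tsum_le_tsum (fun m => ?_) (hs2.mul_left _)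
    split_ifs with hm
    · simp
    · rw [← Real.exp_add]
      refine Real.exp_le_exp.2 ?_
      have h3 := hLB.2 m hm
      have h4 : 0 ≤ (t - a⁻¹) * (qz S m - a) :=
        mul_nonneg (by linarith) (by linarith)
      have h5 : a⁻¹ * a = 1 := inv_mul_cancel₀ ha.ne'
      have h6 : t * a - 1 + a⁻¹ * qz S m ≤ t * qz S m := by nlinarith
      nlinarith [Real.pi_pos]
  nlinarith

end Pool.Agent.H95.CG
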