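import Pool.Agent.H95.CG.Meas

/-!
# (ZM) the integral at `s > 1`
-/

set_option autoImplicit false

open NumberField NumberField.InfinitePlace NumberField.Units
  NumberField.Units.dirichletUnitTheorem MeasureTheory Set Filter Complex
open scoped nonZeroDivisors ENNReal

namespace Pool.Agent.H95.CG

open Pool.Agent.H25.HK

section

variable (K : Type) [Field K] [NumberField K]

theorem Gammaℝ_real {s : ℝ} (hs : 0 < s) : ∃ a : ℝ, 0 < a ∧ Gammaℝ (s : ℂ) = (a : ℂ) := by
  refine ⟨Real.pi ^ (-s / 2) * Real.Gamma (s / 2), ?_, ?_⟩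
  · have := Real.Gamma_pos_of_pos (half_pos hs)
    positivity
  · have h1 := Complex.Gamma_ofReal (s / 2)
    rw [Gammaℝ_def, ofReal_mul, ofReal_cpow Real.pi_pos.le, ← h1]
    push_cast
    rfl

theorem Gammaℂ_real {s : ℝ} (hs : 0 < s) : ∃ a : ℝ, 0 < a ∧ Gammaℂ (s : ℂ) = (a : ℂ) := by
  refine ⟨2 * (2 * Real.pi) ^ (-s) * Real.Gamma s, ?_, ?_⟩
  · have := Real.Gamma_pos_of_pos hs
    positivity
  · have h1 := Complex.Gamma_ofReal s
    rw [Gammaℂ_def, ofReal_mul, ofReal_mul, ofReal_cpow (by positivity), ← h1]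
    push_cast
    rfl

theorem gK_real {s : ℝ} (hs : 0 < s) : 0 < gr K s ∧ gK K (s : ℂ) = (gr K s : ℂ) := by
  obtain ⟨a, ha, h1⟩ := Gammaℝ_real hs
  obtain ⟨b, hb, h2⟩ := Gammaℂ_real hs
  have h3 : gK K (s : ℂ) = ((a ^ nrRealPlaces K * b ^ nrComplexPlaces K : ℝ) : ℂ) := by
    unfold gK
    rw [h1, h2]
    push_cast
    rfl
  unfold gr
  rw [h3, ofReal_re]
  exact ⟨by positivity, rfl⟩

open scoped Classical in
theorem pf_zm (hTH : T_TH) (hCT : T_CT) (hYC : T_YC) (hFD : T_FD) (hDU : T_DU) (hWP : T_WP)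
    (hME : T_ME) : T_ZM := by
  intro K _ _ M hM s hs
  obtain ⟨hg0, hg1⟩ := gK_real K (s := s) (by linarith)
  refine ⟨hg0, by rw [hg1]; simp, ?_⟩
  have hcv := cv_pos K hDU hM
  have hN0 : (0 : ℝ) < FractionalIdeal.absNorm M := (hDU K M hM).2.2.2.1
  have hD0 : 0 < |(discr K : ℝ)| := abs_pos.2 (by exact_mod_cast discr_ne_zero K)
  rw [swap K hTH hCT hYC hFD hM (Ioi 0) (fun t => t ^ (s - 1))
    (measurable_id.pow_const _)]
  -- the Mellin transform
  obtain ⟨P, hPf, -, hPk, -, hPf0, -⟩ := hWP K M hM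
  have hs1 : P.k < (s : ℂ).re := by rw [hPk]; simpa using hs
  have hconv := (P.hasMellin (s := (s : ℂ)) hs1).1
  have hfun : (fun x => P.f x - P.f₀) =
      fun t => (((ff K M t - volume.real (Fd K) : ℝ)) : ℂ) := by
    funext t
    rw [hPf, hPf0]
    push_cast
    rfl
  rw [hfun] at hconv
  have hme := hME K M hM s (by simpa using hs)
  have hfun2 : (fun t => (ff K M t : ℂ) - (volume.real (Fd K) : ℝ)) =
      fun t => (((ff K M t - volume.real (Fd K) : ℝ)) : ℂ) := by
    funext t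
    push_cast
    rfl
  rw [hfun2] at hme
  -- as a real integral
  have hreal : ∀ t ∈ Ioi (0 : ℝ), (t : ℂ) ^ ((s : ℂ) - 1) •
      (((ff K M t - volume.real (Fd K) : ℝ)) : ℂ) =
      (((ff K M t - volume.real (Fd K)) * t ^ (s - 1) : ℝ) : ℂ) := by
    intro t ht
    have ht0 : 0 < t := ht
    rw [smul_eq_mul]
    push_cast
    rw [ofReal_cpow ht0.le]
    push_cast
    ring
  have hint : IntegrableOn (fun t : ℝ => (ff K M t - volume.real (Fd K)) * t ^ (s - 1))
      (Ioi 0) := by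
    have h1 : IntegrableOn (fun t : ℝ => (((ff K M t - volume.real (Fd K)) * t ^ (s - 1) : ℝ) : ℂ))
        (Ioi 0) := by
      refine (integrableOn_congr_fun hreal measurableSet_Ioi).1 ?_
      exact hconv
    have h2 := h1.re
    exact h2
  have hval : mellin (fun t => (((ff K M t - volume.real (Fd K) : ℝ)) : ℂ)) (s : ℂ) =
      ((∫ t in Ioi (0 : ℝ), (ff K M t - volume.real (Fd K)) * t ^ (s - 1) : ℝ) : ℂ) := by
    unfold mellin
    rw [setIntegral_congr_fun measurableSet_Ioi hreal]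
    exact integral_ofReal
  -- change of variables
  have hcomp : (∫ t in Ioi (0 : ℝ), (ff K M (t / cv K M) - volume.real (Fd K)) * t ^ (s - 1)) =
      cv K M ^ s * ∫ t in Ioi (0 : ℝ), (ff K M t - volume.real (Fd K)) * t ^ (s - 1) := by
    have h1 := integral_comp_mul_right_Ioi
      (fun t : ℝ => (ff K M t - volume.real (Fd K)) * (t * cv K M) ^ (s - 1)) 0
      (inv_pos.2 hcv)
    rw [zero_mul, inv_inv, smul_eq_mul] at h1
    have h2 : ∀ t ∈ Ioi (0 : ℝ), (ff K M (t / cv K M) - volume.real (Fd K)) * t ^ (s - 1) =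
        (fun t : ℝ => (ff K M t - volume.real (Fd K)) * (t * cv K M) ^ (s - 1))
          (t * (cv K M)⁻¹) := by
      intro t _
      simp only
      rw [mul_assoc, inv_mul_cancel₀ hcv.ne', mul_one, div_eq_mul_inv]
    rw [setIntegral_congr_fun measurableSet_Ioi h2, h1]
    have h3 : ∀ t ∈ Ioi (0 : ℝ), (ff K M t - volume.real (Fd K)) * (t * cv K M) ^ (s - 1) =
        cv K M ^ (s - 1) * ((ff K M t - volume.real (Fd K)) * t ^ (s - 1)) := by
      intro t ht
      rw [Real.mul_rpow (le_of_lt ht) hcv.le]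
      ring
    rw [setIntegral_congr_fun measurableSet_Ioi h3, integral_const_mul, ← mul_assoc]
    congr 1
    rw [mul_comm, ← Real.rpow_add_one hcv.ne']
    congr 1
    ring
  have hint2 : IntegrableOn (fun t : ℝ => (ff K M (t / cv K M) - volume.real (Fd K)) *
      t ^ (s - 1)) (Ioi 0) := by
    have h1 := (integrableOn_Ioi_comp_mul_right_iff
      (fun t : ℝ => (ff K M t - volume.real (Fd K)) * (t * cv K M) ^ (s - 1)) 0
      (inv_pos.2 hcv)).2
    rw [zero_mul] at h1
    have h3 : IntegrableOn (fun t : ℝ => (ff K M t - volume.real (Fd K)) *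
        (t * cv K M) ^ (s - 1)) (Ioi 0) := by
      refine (integrableOn_congr_fun (f := fun t : ℝ => cv K M ^ (s - 1) *
        ((ff K M t - volume.real (Fd K)) * t ^ (s - 1))) ?_ measurableSet_Ioi).1
        (hint.const_mul _)
      intro t ht
      simp only
      rw [Real.mul_rpow (le_of_lt ht) hcv.le]
      ring
    refine (integrableOn_congr_fun ?_ measurableSet_Ioi).1 (h1 h3)
    intro t _
    simp only
    rw [mul_assoc, inv_mul_cancel₀ hcv.ne', mul_one, div_eq_mul_inv]
  rw [← ofReal_integral_eq_lintegral_ofReal hint2]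
  · congr 1
    rw [hcomp]
    -- the value
    have hsum : ((pz K M s : ℝ) : ℂ) = ∑' I : {I : Ideal (𝓞 K) // Pri K M I},
        (Ideal.absNorm I.1 : ℂ) ^ (-(s : ℂ)) := by
      unfold pz
      rw [ofReal_tsum]
      refine tsum_congr fun I => ?_
      rw [ofReal_cpow (Nat.cast_nonneg _)]
      push_cast
      rfl
    have hc : ((∫ t in Ioi (0 : ℝ), (ff K M t - volume.real (Fd K)) * t ^ (s - 1) : ℝ) : ℂ) =
        ((cw K * gr K s * (FractionalIdeal.absNorm M : ℝ) ^ (-s) * pz K M s : ℝ) : ℂ) := by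
      rw [← hval, hme, hg1]
      push_cast
      rw [hsum, ofReal_cpow hN0.le]
      unfold cw
      push_cast
      rfl
    rw [ofReal_inj.1 hc]
    have h5 : cv K M ^ s = |(discr K : ℝ)| ^ (s / 2) * (FractionalIdeal.absNorm M : ℝ) ^ s := by
      unfold cv
      rw [Real.mul_rpow (Real.sqrt_nonneg _) hN0.le, Real.sqrt_eq_rpow, ← Real.rpow_mul hD0.le]
      congr 2
      ring
    rw [h5, Real.rpow_neg hN0.le]
    have h6 : (FractionalIdeal.absNorm M : ℝ) ^ s ≠ 0 := (Real.rpow_pos_of_pos hN0 _).ne'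
    field_simp
  · refine (ae_restrict_iff' measurableSet_Ioi).2 (Eventually.of_forall fun t ht => ?_)
    have ht0 : (0 : ℝ) < t := ht
    have h7 := (lint_ff K hTH hCT hYC hFD hM t).1
    exact mul_nonneg h7 (Real.rpow_nonneg ht0.le _)

end

end Pool.Agent.H95.CG
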