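import Pool.Agent.H25.HK.Final
import Pool.Agent.H95.CG.EI
import Pool.Agent.H95.CG.FI
import Pool.Agent.H95.CG.KK
import Pool.Agent.H95.CG.LF
import Pool.Agent.H95.CG.PC
import Pool.Agent.H95.CG.PD
import Pool.Agent.H95.CG.RC
import Pool.Agent.H95.CG.RG
import Pool.Agent.H95.CG.SB
import Pool.Agent.H95.CG.TA
import Pool.Agent.H95.CG.ZM
import Pool.Agent.H18.CG.CH
import Pool.Agent.H18.CG.CO
import Pool.Agent.H3.CG.LL
import Pool.Agent.H3.CG.OR
import Pool.Agent.H34.CG.MI
import Pool.Agent.H39.CG.FM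
import Pool.Agent.H48.CG.PK
import Pool.Agent.H54.CG.MX
import Pool.Agent.H56.CG.TF
import Pool.Agent.H6.CG.GB
import Pool.Agent.H65.CG.IF
import Pool.Agent.H69.CG.KE
import Pool.Agent.H74.CG.ZB

/-!
# Class group L-functions of number fields at the central point: assembly
-/

set_option autoImplicit false

namespace Pool.Agent.H95.CG

open Pool.Agent.H25.HK

theorem TF_proved : T_TF := Pool.Agent.H56.CG.pf_tf
theorem PC_proved : T_PC := pf_pc Pool.Agent.H48.CG.pf_pk
theorem CO_proved : T_CO := Pool.Agent.H18.CG.pf_co Pool.Agent.H48.CG.pf_pk PC_proved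
theorem LL_proved : T_LL :=
  Pool.Agent.H3.CG.pf_ll TF_proved CO_proved PC_proved Pool.Agent.H3.CG.pf_or
theorem TA_proved : T_TA := pf_ta T_PO_proved CO_proved
theorem MI_proved : T_MI := Pool.Agent.H34.CG.pf_mi TF_proved CO_proved PC_proved
theorem EI_proved : T_EI := pf_ei T_PO_proved MI_proved
theorem MX_proved : T_MX :=
  Pool.Agent.H54.CG.pf_mx Pool.Agent.H3.HK.lb Pool.Agent.H3.HK.gm T_DU_proved T_YC_proved
    Pool.Agent.H41.HK.bi
theorem ZM_proved : T_ZM :=
  pf_zm T_TH_proved T_CT_proved T_YC_proved Pool.Agent.H66.HK.fd T_DU_proved T_WP_proved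
    T_ME_proved
theorem KE_proved : T_KE := Pool.Agent.H69.CG.pf_ke LL_proved TA_proved MI_proved
theorem KK_proved : T_KK := pf_kk KE_proved EI_proved MI_proved TF_proved
theorem IF_proved : T_IF :=
  Pool.Agent.H65.CG.pf_if T_TH_proved T_CT_proved T_YC_proved Pool.Agent.H66.HK.fd T_DU_proved
    T_WP_proved
theorem PD_proved : T_PD := pf_pd T_UI_proved
theorem SB_proved : T_SB :=
  pf_sb KK_proved MX_proved IF_proved ZM_proved PD_proved Pool.Agent.H66.HK.fd T_DU_proved
theorem LF_proved : T_LF :=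
  pf_lf T_TH_proved T_UI_proved Pool.Agent.H66.HK.fd T_CT_proved T_DC_proved T_DU_proved
    T_YC_proved T_ME_proved Pool.Agent.H63.HK.ds IF_proved
theorem FM_proved : T_FM :=
  Pool.Agent.H39.CG.pf_fm Pool.Agent.H66.HK.fd Pool.Agent.H41.HK.un T_YC_proved T_UI_proved
    T_TH_proved IF_proved

/-- the final theorem -/
theorem FI_proved : T_FI :=
  pf_fi LF_proved FM_proved SB_proved (pf_rc T_DU_proved) Pool.Agent.H74.CG.pf_zb
    Pool.Agent.H6.CG.pf_gb pf_rg Pool.Agent.H18.CG.pf_ch IF_proved T_DU_proved ZM_proved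

end Pool.Agent.H95.CG
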