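import Pool.Agent.H95.CG.Targets

/-!
# measurability and exchange of integrals
-/

set_option autoImplicit false

open NumberField NumberField.InfinitePlace NumberField.Units
  NumberField.Units.dirichletUnitTheorem MeasureTheory Set Filter Complex
open scoped nonZeroDivisors ENNReal

namespace Pool.Agent.H95.CG

open Pool.Agent.H25.HK

section

variable (K : Type) [Field K] [NumberField K]

theorem cv_pos (hDU : T_DU) {M : FI K} (hM : M ≠ 0) : 0 < cv K M := by
  unfold cv
  have h1 : 0 < |(discr K : ℝ)| := abs_pos.2 (by exact_mod_cast discr_ne_zero K)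
  exact mul_pos (Real.sqrt_pos.2 h1) (hDU K M hM).2.2.2.1

theorem one_le_th (hTH : T_TH) {M : FI K} (hM : M ≠ 0) (y : InfinitePlace K → ℝ) :
    1 ≤ th K M y := by
  have hs := (hTH K M hM y).1
  have h0 : (0 : K) ∈ M := FractionalIdeal.zero_mem M
  have h1 := hs.le_tsum (⟨0, h0⟩ : {x : K // x ∈ M}) (fun i _ => (Real.exp_pos _).le)
  have h2 : qK K y ((⟨0, h0⟩ : {x : K // x ∈ M}) : K) = 0 := by
    unfold qK
    simp
  rw [h2, mul_zero, Real.exp_zero] at h1
  exact h1

theorem one_le_tn (hTH : T_TH) {M : FI K} (hM : M ≠ 0) (t : ℝ) (z : logSpace K) :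
    1 ≤ tn K M t z := one_le_th K hTH hM _

open scoped Classical in
theorem meas_tn (hCT : T_CT) (hYC : T_YC) {M : FI K} (hM : M ≠ 0) :
    Measurable (fun p : ℝ × logSpace K => tn K M p.1 p.2) := by
  have h1 : Measurable (th K M) := (hCT K M hM).measurable
  have h2 : Measurable (fun p : ℝ × logSpace K => yc K p.1 p.2) :=
    (hYC K).2.2.2.2.1.measurable
  have h3 : Measurable (fun p : ℝ × logSpace K => (Real.log (p.1 / cv K M), p.2)) :=
    (Real.measurable_log.comp (measurable_fst.div_const _)).prodMk measurable_snd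
  exact h1.comp (h2.comp h3)

open scoped Classical in
theorem tn_int (hCT : T_CT) (hYC : T_YC) (hFD : T_FD) {M : FI K} (hM : M ≠ 0) (t : ℝ) :
    IntegrableOn (fun z => tn K M t z) (Fd K) volume := by
  obtain ⟨h1, ⟨B, hB⟩, -, h4, -, -, -⟩ := hFD K
  have hc : Continuous (fun z : logSpace K => tn K M t z) :=
    (hCT K M hM).comp ((hYC K).2.2.2.2.1.comp (Continuous.prodMk_right _))
  have hcomp : IsCompact (Metric.closedBall (0 : logSpace K) (max B 0)) :=
    isCompact_closedBall _ _
  refine IntegrableOn.mono_set (hc.continuousOn.integrableOn_compact hcomp) ?_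
  intro z hz
  rw [mem_closedBall_zero_iff, pi_norm_le_iff_of_nonneg (le_max_right _ _)]
  intro w
  exact (hB z hz w).trans (le_max_left _ _)

open scoped Classical in
/-- the average over the units -/
theorem lint_ff (hTH : T_TH) (hCT : T_CT) (hYC : T_YC) (hFD : T_FD) {M : FI K} (hM : M ≠ 0)
    (t : ℝ) : 0 ≤ ff K M (t / cv K M) - volume.real (Fd K) ∧
    ∫⁻ z in Fd K, ENNReal.ofReal (tn K M t z - 1) =
      ENNReal.ofReal (ff K M (t / cv K M) - volume.real (Fd K)) := by
  have hint := tn_int K hCT hYC hFD hM t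
  have hfin : volume (Fd K) ≠ ⊤ := (hFD K).2.2.2.1.ne
  have h1 : IntegrableOn (fun z : logSpace K => tn K M t z - 1) (Fd K) volume :=
    hint.sub (integrableOn_const hfin)
  have h2 : ff K M (t / cv K M) - volume.real (Fd K) = ∫ z in Fd K, (tn K M t z - 1) := by
    have h3 := integral_sub (μ := volume.restrict (Fd K)) hint
      (integrableOn_const (C := (1 : ℝ)) hfin)
    rw [h3]
    have h4 : ∫ _z in Fd K, (1 : ℝ) = volume.real (Fd K) := by
      simp
    rw [h4]
    rfl
  constructor
  · rw [h2]
    exact integral_nonneg fun z => by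
      have := one_le_tn K hTH hM t z
      simpa using this
  · rw [h2, ofReal_integral_eq_lintegral_ofReal h1]
    exact Eventually.of_forall fun z => by
      have := one_le_tn K hTH hM t z
      simpa using this

open scoped Classical in
/-- exchanging the integrals -/
theorem swap (hTH : T_TH) (hCT : T_CT) (hYC : T_YC) (hFD : T_FD) {M : FI K} (hM : M ≠ 0)
    (A : Set ℝ) (g : ℝ → ℝ) (hg : Measurable g) :
    ∫⁻ z in Fd K, ∫⁻ t in A, ENNReal.ofReal ((tn K M t z - 1) * g t) =
      ∫⁻ t in A, ENNReal.ofReal ((ff K M (t / cv K M) - volume.real (Fd K)) * g t) := by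
  have hm : Measurable (fun p : logSpace K × ℝ => ENNReal.ofReal ((tn K M p.2 p.1 - 1) * g p.2)) := by
    have h1 := (meas_tn K hCT hYC hM).comp (measurable_snd.prodMk measurable_fst :
      Measurable (fun p : logSpace K × ℝ => (p.2, p.1)))
    exact ((h1.sub_const 1).mul (hg.comp measurable_snd)).ennreal_ofReal
  rw [lintegral_lintegral_swap hm.aemeasurable]
  refine lintegral_congr fun t => ?_
  have h2 := lint_ff K hTH hCT hYC hFD hM t
  have h3 : ∀ z : logSpace K, ENNReal.ofReal ((tn K M t z - 1) * g t) =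
      ENNReal.ofReal (tn K M t z - 1) * ENNReal.ofReal (g t) := by
    intro z
    rw [ENNReal.ofReal_mul]
    have := one_le_tn K hTH hM t z
    linarith
  simp_rw [h3]
  rw [lintegral_mul_const' _ _ ENNReal.ofReal_ne_top, h2.2, ENNReal.ofReal_mul h2.1]

end

end Pool.Agent.H95.CG
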